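import Pool.Agent.X104.RT.Meas

/-!
Convex sums of molecules over a rooted real tree have no cancellation; families with bounded
densities satisfy condition (a).
-/

set_option autoImplicit false

noncomputable section

open Set Filter Topology MeasureTheory Measure
open Pool.Agent.H266R3.LF

namespace Pool.Agent.X104.RT

variable {T : Type} [MetricSpace T] {o : T}

/-- the molecule -/
def mol (o x y : T) : StrongDual ℝ (Lip0 T o) := (dist x y)⁻¹ • (dlt T o x - dlt T o y)

/-- indicator of the segment -/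
def ind (o x : T) (ω : T) : ℝ := (Rooted.seg o x).indicator (fun _ => (1 : ℝ)) ω

theorem ind_mem {x ω : T} (hω : ω ∈ Rooted.seg o x) : ind o x ω = 1 := by
  unfold ind; rw [Set.indicator_of_mem hω]

theorem ind_not {x ω : T} (hω : ω ∉ Rooted.seg o x) : ind o x ω = 0 := by
  unfold ind; rw [Set.indicator_of_notMem hω]

/-- the density of the `i`-th molecule -/
def gd (o : T) (a : ℝ) (x y ω : T) : ℝ := a * ((dist x y)⁻¹ * (ind o x ω - ind o y ω))

theorem mol_apply (x y : T) (f : Lip0 T o) : mol o x y f = (dist x y)⁻¹ * (f.fn x - f.fn y) := by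
  unfold mol
  rw [_root_.smul_apply, _root_.sub_apply, dlt_apply, dlt_apply, smul_eq_mul]

section

variable (h : Rooted T o)

theorem core (f : Lip0 T o) {x y ω : T} (hx : ω ∈ Rooted.seg o x) (hy : ω ∉ Rooted.seg o y)
    {s : ℝ} (hs0 : mt o ω y ≤ s) (hs1 : s ≤ dist o ω) :
    f.fn x - f.fn y ≤ ‖f‖ * (dist x y - (dist o ω - s)) + (f.fn ω - f.fn (h.tr ω s)) := by
  have h0 : 0 ≤ s := (mt_nonneg _ _).trans hs0
  have hωx : dist o ω ≤ dist o x := by rw [← mem_seg.mp hx]; exact mt_le_right _ _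
  have e1 : mt o ω y = mt o x y := by
    have h2 := h.tr_mt x y (s := dist o ω) dist_nonneg hωx
    rw [← h.eq_tr hx] at h2
    have h3 : mt o ω y < dist o ω := lt_of_le_of_ne (mt_le_left _ _) hy
    rw [h2] at h3 ⊢
    rcases min_lt_iff.mp h3 with h4 | h4
    · exact absurd h4 (lt_irrefl _)
    · exact min_eq_right h4.le
  have e2 : dist x ω = dist o x - dist o ω := by
    rw [dist_eq_mt (o := o), mt_comm, mem_seg.mp hx]; ring
  have e3 : dist (h.tr ω s) y = s + dist o y - 2 * mt o ω y := by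
    rw [dist_eq_mt (o := o), h.tr_ht ω h0 hs1, h.tr_mt ω y h0 hs1, min_eq_right hs0]
  have h1 := (le_abs_self _).trans (f.abs_sub_le x ω)
  have h2 := (le_abs_self _).trans (f.abs_sub_le (h.tr ω s) y)
  have e4 : dist x y - (dist o ω - s) = dist x ω + dist (h.tr ω s) y := by
    rw [e2, e3, dist_eq_mt (o := o) x y, e1]; ring
  rw [e4]
  linarith

theorem pos_case (f : Lip0 T o) {a : ℝ} (ha : 0 < a) {x y ω : T} (hxy : x ≠ y)
    (hx : ω ∈ Rooted.seg o x) (hy : ω ∉ Rooted.seg o y)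
    {s : ℝ} (hs0 : mt o ω y ≤ s) (hs1 : s ≤ dist o ω) :
    (|a| * (dist x y)⁻¹) * (‖f‖ * (dist o ω - s) - (f.fn ω - f.fn (h.tr ω s))) ≤
      |a| * ‖f‖ - a * ((dist x y)⁻¹ * (f.fn x - f.fn y)) := by
  have hd : 0 < dist x y := dist_pos.mpr hxy
  have h1 := core h f hx hy hs0 hs1
  rw [abs_of_pos ha]
  have h2 : a * ((dist x y)⁻¹ * (f.fn x - f.fn y)) ≤
      a * ((dist x y)⁻¹ * (‖f‖ * (dist x y - (dist o ω - s)) + (f.fn ω - f.fn (h.tr ω s)))) := by
    gcongr
  have h3 : a * ((dist x y)⁻¹ * (‖f‖ * (dist x y - (dist o ω - s)) +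
      (f.fn ω - f.fn (h.tr ω s)))) = a * ‖f‖ -
      (a * (dist x y)⁻¹) * (‖f‖ * (dist o ω - s) - (f.fn ω - f.fn (h.tr ω s))) := by
    field_simp
    ring
  linarith

theorem gd_pos_cases {a : ℝ} {x y ω : T} (hg : 0 < gd o a x y ω) :
    (0 < a ∧ ω ∈ Rooted.seg o x ∧ ω ∉ Rooted.seg o y) ∨
      (a < 0 ∧ ω ∉ Rooted.seg o x ∧ ω ∈ Rooted.seg o y) := by
  unfold gd at hg
  by_cases hx : ω ∈ Rooted.seg o x <;> by_cases hy : ω ∈ Rooted.seg o y
  · rw [ind_mem hx, ind_mem hy] at hg; simp at hg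
  · rw [ind_mem hx, ind_not hy] at hg
    refine Or.inl ⟨?_, hx, hy⟩
    by_contra hcon
    push Not at hcon
    have : a * ((dist x y)⁻¹ * (1 - 0)) ≤ 0 :=
      mul_nonpos_of_nonpos_of_nonneg hcon (by rw [sub_zero, mul_one]; positivity)
    linarith
  · rw [ind_not hx, ind_mem hy] at hg
    refine Or.inr ⟨?_, hx, hy⟩
    by_contra hcon
    push Not at hcon
    have : a * ((dist x y)⁻¹ * (0 - 1)) ≤ 0 :=
      mul_nonpos_of_nonneg_of_nonpos hcon (by
        have : 0 ≤ (dist x y)⁻¹ := by positivity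
        linarith)
    linarith
  · rw [ind_not hx, ind_not hy] at hg; simp at hg

theorem sm_lt {a : ℝ} {x y ω : T} (hg : 0 < gd o a x y ω) :
    min (mt o ω x) (mt o ω y) < dist o ω := by
  rcases gd_pos_cases hg with ⟨_, _, hy⟩ | ⟨_, hx, _⟩
  · exact (min_le_right _ _).trans_lt (lt_of_le_of_ne (mt_le_left _ _) hy)
  · exact (min_le_left _ _).trans_lt (lt_of_le_of_ne (mt_le_left _ _) hx)

theorem caseG (f : Lip0 T o) {a : ℝ} {x y ω : T} (hxy : x ≠ y) (hg : 0 < gd o a x y ω)
    {s : ℝ} (hs0 : min (mt o ω x) (mt o ω y) ≤ s) (hs1 : s ≤ dist o ω) :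
    (|a| * (dist x y)⁻¹) * (‖f‖ * (dist o ω - s) - (f.fn ω - f.fn (h.tr ω s))) ≤
      |a| * ‖f‖ - a * ((dist x y)⁻¹ * (f.fn x - f.fn y)) := by
  rcases gd_pos_cases hg with ⟨ha, hx, hy⟩ | ⟨ha, hx, hy⟩
  · refine pos_case h f ha hxy hx hy ?_ hs1
    have h1 : mt o ω y ≤ mt o ω x := by rw [mem_seg.mp hx]; exact mt_le_left _ _
    rwa [min_eq_right h1] at hs0
  · have h1 : mt o ω x ≤ mt o ω y := by rw [mem_seg.mp hy]; exact mt_le_left _ _
    rw [min_eq_left h1] at hs0
    have h2 := pos_case h f (a := -a) (by linarith) hxy.symm hy hx hs0 hs1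
    rw [abs_neg, dist_comm y x] at h2
    have h3 : -a * ((dist x y)⁻¹ * (f.fn y - f.fn x)) = a * ((dist x y)⁻¹ * (f.fn x - f.fn y)) := by
      ring
    rwa [h3] at h2

theorem caseL (f : Lip0 T o) {a : ℝ} {x y ω : T} (hxy : x ≠ y) (hg : gd o a x y ω < 0)
    {s : ℝ} (hs0 : min (mt o ω x) (mt o ω y) ≤ s) (hs1 : s ≤ dist o ω) :
    (|a| * (dist x y)⁻¹) * (‖f‖ * (dist o ω - s) + (f.fn ω - f.fn (h.tr ω s))) ≤
      |a| * ‖f‖ - a * ((dist x y)⁻¹ * (f.fn x - f.fn y)) := by
  have hg' : 0 < gd o (-a) x y ω := by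
    unfold gd at hg ⊢
    linarith
  have h1 := caseG h (-f) hxy hg' hs0 hs1
  rw [norm_neg, abs_neg] at h1
  simp only [Lip0.fn_neg] at h1
  have h2 : -a * ((dist x y)⁻¹ * (-f.fn x - -f.fn y)) =
      a * ((dist x y)⁻¹ * (f.fn x - f.fn y)) := by ring
  rw [h2] at h1
  have h3 : ‖f‖ * (dist o ω - s) - (-f.fn ω - -f.fn (h.tr ω s)) =
      ‖f‖ * (dist o ω - s) + (f.fn ω - f.fn (h.tr ω s)) := by ring
  rwa [h3] at h1

include h in
/-- No cancellation. -/
theorem no_cancel {n : ℕ} (a : Fin n → ℝ) (x y : Fin n → T) (hxy : ∀ i, x i ≠ y i)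
    (hγ : ‖∑ i, a i • mol o (x i) (y i)‖ = ∑ i, |a i|) (ω : T) (i j : Fin n)
    (hi : 0 < gd o (a i) (x i) (y i) ω) (hj : gd o (a j) (x j) (y j) ω < 0) : False := by
  have hij : i ≠ j := by
    rintro rfl
    linarith
  have hj' : 0 < gd o (-(a j)) (x j) (y j) ω := by
    unfold gd at hj ⊢
    linarith
  set s : ℝ := max (min (mt o ω (x i)) (mt o ω (y i))) (min (mt o ω (x j)) (mt o ω (y j)))
    with hs
  have hs1 : s < dist o ω := max_lt (sm_lt hi) (sm_lt hj')
  set τ : ℝ := dist o ω - s with hτ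
  have hτ0 : 0 < τ := by rw [hτ]; linarith
  have hai : a i ≠ 0 := by
    intro h0
    unfold gd at hi
    rw [h0, zero_mul] at hi
    exact lt_irrefl _ hi
  have haj : a j ≠ 0 := by
    intro h0
    unfold gd at hj
    rw [h0, zero_mul] at hj
    exact lt_irrefl _ hj
  have hdi : 0 < dist (x i) (y i) := dist_pos.mpr (hxy i)
  have hdj : 0 < dist (x j) (y j) := dist_pos.mpr (hxy j)
  set κ : ℝ := min (|a i| * (dist (x i) (y i))⁻¹) (|a j| * (dist (x j) (y j))⁻¹) with hκ
  have hκ0 : 0 < κ := lt_min (by positivity) (by positivity)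
  have key : ∀ f : Lip0 T o, (∑ i, a i • mol o (x i) (y i)) f ≤
      ((∑ i, |a i|) - 2 * κ * τ) * ‖f‖ := by
    intro f
    have e0 : ∀ l : Fin n, 0 ≤ |a l| * ‖f‖ -
        a l * ((dist (x l) (y l))⁻¹ * (f.fn (x l) - f.fn (y l))) := by
      intro l
      have hd : 0 < dist (x l) (y l) := dist_pos.mpr (hxy l)
      have h1 : |(dist (x l) (y l))⁻¹ * (f.fn (x l) - f.fn (y l))| ≤ ‖f‖ := by
        rw [abs_mul, abs_of_pos (inv_pos.mpr hd), inv_mul_le_iff₀ hd, mul_comm]
        exact f.abs_sub_le _ _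
      have h2 : a l * ((dist (x l) (y l))⁻¹ * (f.fn (x l) - f.fn (y l))) ≤ |a l| * ‖f‖ := by
        refine (le_abs_self _).trans ?_
        rw [abs_mul]
        exact mul_le_mul_of_nonneg_left h1 (abs_nonneg _)
      linarith
    have h1 := caseG h f (hxy i) hi (le_max_left _ _ : _ ≤ s) hs1.le
    have h2 := caseL h f (hxy j) hj (le_max_right _ _ : _ ≤ s) hs1.le
    have h3 : ∑ l ∈ ({i, j} : Finset (Fin n)), (|a l| * ‖f‖ -
        a l * ((dist (x l) (y l))⁻¹ * (f.fn (x l) - f.fn (y l)))) ≤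
        ∑ l, (|a l| * ‖f‖ - a l * ((dist (x l) (y l))⁻¹ * (f.fn (x l) - f.fn (y l)))) :=
      Finset.sum_le_sum_of_subset_of_nonneg (Finset.subset_univ _) (fun l _ _ => e0 l)
    rw [Finset.sum_pair hij, Finset.sum_sub_distrib, ← Finset.sum_mul] at h3
    have h4 : (∑ i, a i • mol o (x i) (y i)) f =
        ∑ l, a l * ((dist (x l) (y l))⁻¹ * (f.fn (x l) - f.fn (y l))) := by
      rw [_root_.sum_apply]
      refine Finset.sum_congr rfl fun l _ => ?_
      rw [_root_.smul_apply, mol_apply, smul_eq_mul]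
    rw [h4]
    -- the increments
    have hu : dist ω (h.tr ω s) = τ := by
      have hs0 : 0 ≤ s := le_max_of_le_left (le_min (mt_nonneg _ _) (mt_nonneg _ _))
      rw [dist_eq_mt (o := o), h.tr_ht ω hs0 hs1.le, mt_comm, h.tr_mt_self ω hs0 hs1.le, hτ]
      ring
    have hΔ := f.abs_sub_le ω (h.tr ω s)
    rw [hu] at hΔ
    obtain ⟨hΔ1, hΔ2⟩ := abs_le.mp hΔ
    set Δ := f.fn ω - f.fn (h.tr ω s) with hΔdef
    have k1 : κ * (‖f‖ * τ - Δ) ≤ (|a i| * (dist (x i) (y i))⁻¹) * (‖f‖ * τ - Δ) :=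
      mul_le_mul_of_nonneg_right (min_le_left _ _) (by linarith)
    have k2 : κ * (‖f‖ * τ + Δ) ≤ (|a j| * (dist (x j) (y j))⁻¹) * (‖f‖ * τ + Δ) :=
      mul_le_mul_of_nonneg_right (min_le_right _ _) (by linarith)
    have k3 : κ * (‖f‖ * τ - Δ) + κ * (‖f‖ * τ + Δ) = 2 * κ * τ * ‖f‖ := by ring
    linarith
  have hM : 0 ≤ (∑ i, |a i|) - 2 * κ * τ ∨ (∑ i, |a i|) - 2 * κ * τ < 0 := le_or_gt _ _
  rcases hM with hM | hM
  · have h1 : ‖∑ i, a i • mol o (x i) (y i)‖ ≤ (∑ i, |a i|) - 2 * κ * τ := by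
      refine ContinuousLinearMap.opNorm_le_bound _ hM fun f => ?_
      rw [Real.norm_eq_abs, abs_le]
      refine ⟨?_, key f⟩
      have h2 := key (-f)
      rw [map_neg, norm_neg] at h2
      linarith
    rw [hγ] at h1
    have : 0 < 2 * κ * τ := by positivity
    linarith
  · -- the bound would be negative: impossible
    have h1 : ‖∑ i, a i • mol o (x i) (y i)‖ ≤ 0 := by
      refine ContinuousLinearMap.opNorm_le_bound _ le_rfl fun f => ?_
      rw [Real.norm_eq_abs, abs_le, zero_mul]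
      have h2 := key f
      have h3 := key (-f)
      rw [map_neg, norm_neg] at h3
      have h4 : ((∑ i, |a i|) - 2 * κ * τ) * ‖f‖ ≤ 0 :=
        mul_nonpos_of_nonpos_of_nonneg hM.le (norm_nonneg _)
      exact ⟨by linarith, by linarith⟩
    rw [hγ] at h1
    have h2 : |a i| ≤ ∑ i, |a i| :=
      Finset.single_le_sum (f := fun i => |a i|) (fun _ _ => abs_nonneg _) (Finset.mem_univ i)
    have h3 : 0 < |a i| := abs_pos.mpr hai
    linarith

include h in
theorem abs_sum_gd {n : ℕ} (a : Fin n → ℝ) (x y : Fin n → T) (hxy : ∀ i, x i ≠ y i)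
    (hγ : ‖∑ i, a i • mol o (x i) (y i)‖ = ∑ i, |a i|) (ω : T) :
    |∑ i, gd o (a i) (x i) (y i) ω| = ∑ i, |gd o (a i) (x i) (y i) ω| := by
  by_cases hex : ∃ i, 0 < gd o (a i) (x i) (y i) ω
  · obtain ⟨i, hi⟩ := hex
    have h1 : ∀ j, 0 ≤ gd o (a j) (x j) (y j) ω := by
      intro j
      by_contra hcon
      push Not at hcon
      exact no_cancel h a x y hxy hγ ω i j hi hcon
    rw [abs_of_nonneg (Finset.sum_nonneg fun j _ => h1 j)]
    exact Finset.sum_congr rfl fun j _ => (abs_of_nonneg (h1 j)).symm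
  · push Not at hex
    rw [abs_of_nonpos (Finset.sum_nonpos fun j _ => hex j), ← Finset.sum_neg_distrib]
    exact Finset.sum_congr rfl fun j _ => (abs_of_nonpos (hex j)).symm

variable [MeasurableSpace T] [BorelSpace T]

theorem gd_rep (a : ℝ) (x y : T) : Rep h (a • mol o x y) (gd o a x y) := by
  unfold mol gd
  exact (((Rep.dlt h x).sub h (Rep.dlt h y)).smul h _).smul h a

include h in
theorem gd_int (a : ℝ) {x y : T} (hxy : x ≠ y) : ∫ ω, |gd o a x y ω| ∂μH[1] = |a| := by
  have hd : 0 < dist x y := dist_pos.mpr hxy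
  have h1 : ∀ ω, |gd o a x y ω| = (|a| * (dist x y)⁻¹) *
      ((Rooted.seg o x \ Rooted.seg o y).indicator (fun _ => (1 : ℝ)) ω +
        (Rooted.seg o y \ Rooted.seg o x).indicator (fun _ => (1 : ℝ)) ω) := by
    intro ω
    unfold gd
    rw [abs_mul, abs_mul, abs_of_pos (inv_pos.mpr hd), ← mul_assoc]
    congr 1
    by_cases hx : ω ∈ Rooted.seg o x <;> by_cases hy : ω ∈ Rooted.seg o y
    · rw [ind_mem hx, ind_mem hy]; simp [hx, hy]
    · rw [ind_mem hx, ind_not hy]; simp [hx, hy]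
    · rw [ind_not hx, ind_mem hy]; simp [hx, hy]
    · rw [ind_not hx, ind_not hy]; simp [hx, hy]
  simp_rw [h1]
  have hint : ∀ x y : T, Integrable ((Rooted.seg o x \ Rooted.seg o y).indicator
      (fun _ => (1 : ℝ))) (μH[1] : Measure T) := by
    intro x y
    rw [integrable_indicator_iff ((measurableSet_seg x).diff (measurableSet_seg y))]
    refine integrableOn_const ?_
    rw [meas_seg_diff h]; exact ENNReal.ofReal_ne_top
  have hval : ∀ x y : T, ∫ ω, (Rooted.seg o x \ Rooted.seg o y).indicator (fun _ => (1 : ℝ)) ω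
      ∂μH[1] = dist o x - mt o x y := by
    intro x y
    rw [integral_indicator ((measurableSet_seg x).diff (measurableSet_seg y)), setIntegral_const,
      measureReal_def, meas_seg_diff h, ENNReal.toReal_ofReal (by
        have := mt_le_left (o := o) x y; linarith)]
    simp
  rw [integral_const_mul, integral_add (hint x y) (hint y x), hval, hval, mt_comm y x]
  have h2 : dist o x - mt o x y + (dist o y - mt o x y) = dist x y := by
    rw [dist_eq_mt (o := o) x y]; ring
  rw [h2, mul_assoc, inv_mul_cancel₀ hd.ne', mul_one]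

include h in
/-- Condition (a) for families with densities bounded by `1`. -/
theorem condA (D : StrongDual ℝ (Lip0 T o)) (φ : T → ℝ) (hD : Rep h D φ) (hφ : ∀ ω, |φ ω| ≤ 1)
    {n : ℕ} (a : Fin n → ℝ) (x y : Fin n → T) (hxy : ∀ i, x i ≠ y i)
    (hγ : ‖∑ i, a i • mol o (x i) (y i)‖ = ∑ i, |a i|) (I : Finset (Fin n)) :
    ∑ i ∈ I, |a i| ≤ ∑ i ∈ I, dist (x i) (y i) + ‖∑ i, a i • mol o (x i) (y i) - D‖ := by
  classical
  set E : Fin n → Set T := fun i => (Rooted.seg o (x i) \ Rooted.seg o (y i)) ∪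
    (Rooted.seg o (y i) \ Rooted.seg o (x i)) with hE
  have hEm : ∀ i, MeasurableSet (E i) := fun i =>
    ((measurableSet_seg _).diff (measurableSet_seg _)).union
      ((measurableSet_seg _).diff (measurableSet_seg _))
  have hEμ : ∀ i, (μH[1] : Measure T) (E i) ≤ ENNReal.ofReal (dist (x i) (y i)) := by
    intro i
    refine (measure_union_le _ _).trans ?_
    rw [meas_seg_diff h, meas_seg_diff h, mt_comm (y i), ← ENNReal.ofReal_add]
    · apply le_of_eq
      congr 1
      rw [dist_eq_mt (o := o) (x i)]; ring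
    · have := mt_le_left (o := o) (x i) (y i); linarith
    · have := mt_le_right (o := o) (x i) (y i); linarith
  have hgE : ∀ i ω, ω ∉ E i → gd o (a i) (x i) (y i) ω = 0 := by
    intro i ω hω
    simp only [hE, Set.mem_union, Set.mem_sdiff, not_or, not_and, not_not] at hω
    unfold gd
    by_cases hx : ω ∈ Rooted.seg o (x i)
    · rw [ind_mem hx, ind_mem (hω.1 hx)]; ring
    · by_cases hy : ω ∈ Rooted.seg o (y i)
      · exact absurd (hω.2 hy) hx
      · rw [ind_not hx, ind_not hy]; ring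
  have hrep := (Rep.sum h Finset.univ (fun i => a i • mol o (x i) (y i))
    (fun i => gd o (a i) (x i) (y i)) (fun i _ => gd_rep h _ _ _)).sub h hD
  have hb := hrep.bound
  have hindint : ∀ i, Integrable ((E i).indicator (fun _ => (1 : ℝ))) (μH[1] : Measure T) := by
    intro i
    rw [integrable_indicator_iff (hEm i)]
    refine integrableOn_const ?_
    exact ne_top_of_le_ne_top ENNReal.ofReal_ne_top (hEμ i)
  have hsumint : Integrable (fun ω => ∑ i ∈ I, (E i).indicator (fun _ => (1 : ℝ)) ω)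
      (μH[1] : Measure T) := integrable_finsetSum _ fun i _ => hindint i
  calc ∑ i ∈ I, |a i| = ∑ i ∈ I, ∫ ω, |gd o (a i) (x i) (y i) ω| ∂μH[1] := by
        refine Finset.sum_congr rfl fun i _ => ?_
        rw [gd_int h _ (hxy i)]
    _ = ∫ ω, ∑ i ∈ I, |gd o (a i) (x i) (y i) ω| ∂μH[1] := by
        rw [integral_finsetSum]
        intro i _
        exact (gd_rep h _ _ _).integ.abs
    _ ≤ ∫ ω, (|∑ i, gd o (a i) (x i) (y i) ω - φ ω| +
          ∑ i ∈ I, (E i).indicator (fun _ => (1 : ℝ)) ω) ∂μH[1] := by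
        refine integral_mono ?_ ?_ ?_
        · exact integrable_finsetSum _ fun i _ => (gd_rep h _ _ _).integ.abs
        · exact hrep.integ.abs.add hsumint
        · intro ω
          simp only
          have h0 : ∀ i ∈ I, 0 ≤ (E i).indicator (fun _ => (1 : ℝ)) ω := fun i _ =>
            Set.indicator_nonneg (fun _ _ => zero_le_one) _
          by_cases hω : ∃ i ∈ I, ω ∈ E i
          · obtain ⟨i, hi, hωi⟩ := hω
            have h1 : ∑ i ∈ I, |gd o (a i) (x i) (y i) ω| ≤
                |∑ i, gd o (a i) (x i) (y i) ω| := by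
              rw [abs_sum_gd h a x y hxy hγ ω]
              exact Finset.sum_le_sum_of_subset_of_nonneg (Finset.subset_univ _)
                (fun _ _ _ => abs_nonneg _)
            have h2 : (1 : ℝ) ≤ ∑ i ∈ I, (E i).indicator (fun _ => (1 : ℝ)) ω := by
              have h3 := Finset.single_le_sum h0 hi
              rwa [Set.indicator_of_mem hωi] at h3
            have h3 : |∑ i, gd o (a i) (x i) (y i) ω| ≤
                |∑ i, gd o (a i) (x i) (y i) ω - φ ω| + |φ ω| := by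
              have := abs_add_le (∑ i, gd o (a i) (x i) (y i) ω - φ ω) (φ ω)
              rwa [sub_add_cancel] at this
            have h4 := hφ ω
            linarith
          · push Not at hω
            have h1 : ∑ i ∈ I, |gd o (a i) (x i) (y i) ω| = 0 :=
              Finset.sum_eq_zero fun i hi => by rw [hgE i ω (hω i hi), abs_zero]
            rw [h1]
            exact add_nonneg (abs_nonneg _) (Finset.sum_nonneg h0)
    _ = (∫ ω, |∑ i, gd o (a i) (x i) (y i) ω - φ ω| ∂μH[1]) +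
          ∑ i ∈ I, ∫ ω, (E i).indicator (fun _ => (1 : ℝ)) ω ∂μH[1] := by
        rw [integral_add hrep.integ.abs hsumint, integral_finsetSum]
        intro i _
        exact hindint i
    _ ≤ ‖∑ i, a i • mol o (x i) (y i) - D‖ + ∑ i ∈ I, dist (x i) (y i) := by
        refine add_le_add hb (Finset.sum_le_sum fun i _ => ?_)
        rw [integral_indicator (hEm i), setIntegral_const, smul_eq_mul, mul_one, measureReal_def]
        exact ENNReal.toReal_le_of_le_ofReal dist_nonneg (hEμ i)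
    _ = _ := add_comm _ _

end

end Pool.Agent.X104.RT
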