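import Pool.Agent.X104.RT.Rooted

/-!
The length measure of a rooted real tree and the `L¹` bound for finite combinations of evaluation
functionals.
-/

set_option autoImplicit false

noncomputable section

open Set Filter Topology MeasureTheory Measure
open Pool.Agent.H266R3.LF

namespace Pool.Agent.X104.RT

variable {T : Type} [MetricSpace T] {o : T}

theorem mem_seg {z x : T} : z ∈ Rooted.seg o x ↔ mt o z x = dist o z := Iff.rfl

theorem isClosed_seg (x : T) : IsClosed (Rooted.seg o x) :=
  isClosed_eq (mt_cont x) (by fun_prop)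

section

variable (h : Rooted T o)
include h

theorem seg_eq (x : T) : Rooted.seg o x = h.tr x '' Icc 0 (dist o x) := by
  ext z
  constructor
  · intro hz
    have h1 : dist o z ≤ dist o x := by rw [← mem_seg.mp hz]; exact mt_le_right _ _
    exact ⟨dist o z, ⟨dist_nonneg, h1⟩, (h.eq_tr hz).symm⟩
  · rintro ⟨s, hs, rfl⟩
    rw [mem_seg, h.tr_mt_self x hs.1 hs.2, h.tr_ht x hs.1 hs.2]

theorem seg_diff (x y : T) :
    Rooted.seg o x \ Rooted.seg o y = h.tr x '' Ioc (mt o x y) (dist o x) := by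
  ext z
  constructor
  · rintro ⟨hz, hzy⟩
    have h1 : dist o z ≤ dist o x := by rw [← mem_seg.mp hz]; exact mt_le_right _ _
    refine ⟨dist o z, ⟨?_, h1⟩, (h.eq_tr hz).symm⟩
    by_contra hcon
    push Not at hcon
    apply hzy
    rw [mem_seg]
    have h2 := h.tr_mt x y (s := dist o z) dist_nonneg h1
    rw [← h.eq_tr hz] at h2
    rw [h2, min_eq_left hcon]
  · rintro ⟨s, hs, rfl⟩
    have hs0 : 0 ≤ s := (mt_nonneg x y).trans hs.1.le
    refine ⟨?_, ?_⟩
    · rw [mem_seg, h.tr_mt_self x hs0 hs.2, h.tr_ht x hs0 hs.2]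
    · intro hcon
      rw [mem_seg, h.tr_mt x y hs0 hs.2, h.tr_ht x hs0 hs.2] at hcon
      have := hs.1
      have := min_le_right s (mt o x y)
      linarith

variable [MeasurableSpace T] [BorelSpace T]

theorem meas_image (x : T) (A : Set ℝ) (hA : A ⊆ Icc 0 (dist o x)) :
    μH[1] (h.tr x '' A) = volume A := by
  have hiso : Isometry fun r : Set.Icc (0 : ℝ) (dist o x) => h.tr x (r : ℝ) := by
    refine Isometry.of_dist_eq fun r r' => ?_
    rw [h.dist_tr_self x r.2.1 r.2.2 r'.2.1 r'.2.2, Subtype.dist_eq, Real.dist_eq]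
  have h1 : h.tr x '' A = (fun r : Set.Icc (0 : ℝ) (dist o x) => h.tr x (r : ℝ)) ''
      (Subtype.val ⁻¹' A) := by
    ext z
    constructor
    · rintro ⟨s, hs, rfl⟩
      exact ⟨⟨s, hA hs⟩, hs, rfl⟩
    · rintro ⟨s, hs, rfl⟩
      exact ⟨s, hs, rfl⟩
  have h2 : (Subtype.val : Set.Icc (0 : ℝ) (dist o x) → ℝ) '' (Subtype.val ⁻¹' A) = A := by
    rw [Subtype.image_preimage_coe]
    exact Set.inter_eq_right.mpr hA
  rw [h1, hiso.hausdorffMeasure_image (Or.inl zero_le_one),
    ← (isometry_subtype_coe).hausdorffMeasure_image (Or.inl zero_le_one), h2,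
    hausdorffMeasure_real]

theorem meas_seg_diff (x y : T) :
    μH[1] (Rooted.seg o x \ Rooted.seg o y) = ENNReal.ofReal (dist o x - mt o x y) := by
  rw [seg_diff h, meas_image h x _ (fun s hs => ⟨(mt_nonneg x y).trans hs.1.le, hs.2⟩),
    Real.volume_Ioc]

theorem meas_seg (x : T) : μH[1] (Rooted.seg o x) = ENNReal.ofReal (dist o x) := by
  rw [seg_eq h, meas_image h x _ le_rfl, Real.volume_Icc, sub_zero]

end

theorem measurableSet_seg [MeasurableSpace T] [BorelSpace T] (x : T) :
    MeasurableSet (Rooted.seg o x) := (isClosed_seg x).measurableSet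

variable (h : Rooted T o) [MeasurableSpace T] [BorelSpace T]

/-- admissible densities -/
structure Dens (s : T → ℝ) : Prop where
  meas : Measurable s
  le : ∀ ω, |s ω| ≤ 1

theorem intOn {s : T → ℝ} (hs : Dens s) (A : Set T) (hA : μH[1] A ≠ ⊤) :
    IntegrableOn s A μH[1] := by
  have : IsFiniteMeasure ((μH[1] : Measure T).restrict A) := ⟨by
    rw [Measure.restrict_apply_univ]; exact lt_top_iff_ne_top.mpr hA⟩
  refine Integrable.of_bound hs.meas.aestronglyMeasurable 1 (Filter.Eventually.of_forall ?_)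
  intro ω
  rw [Real.norm_eq_abs]
  exact hs.le ω

include h in
theorem lip_bound {s : T → ℝ} (hs : Dens s) (x y : T) :
    |(∫ ω in Rooted.seg o x, s ω ∂μH[1]) - ∫ ω in Rooted.seg o y, s ω ∂μH[1]| ≤ dist x y := by
  have hx : μH[1] (Rooted.seg o x) ≠ ⊤ := by rw [meas_seg h]; exact ENNReal.ofReal_ne_top
  have hy : μH[1] (Rooted.seg o y) ≠ ⊤ := by rw [meas_seg h]; exact ENNReal.ofReal_ne_top
  have h1 := integral_inter_add_sdiff (μ := (μH[1] : Measure T)) (f := s)
    (s := Rooted.seg o x) (t := Rooted.seg o y) (measurableSet_seg y) (intOn hs _ hx)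
  have h2 := integral_inter_add_sdiff (μ := (μH[1] : Measure T)) (f := s)
    (s := Rooted.seg o y) (t := Rooted.seg o x) (measurableSet_seg x) (intOn hs _ hy)
  rw [Set.inter_comm] at h2
  have h3 : ∀ x y : T, |∫ ω in Rooted.seg o x \ Rooted.seg o y, s ω ∂μH[1]| ≤
      dist o x - mt o x y := by
    intro x y
    have h4 := norm_setIntegral_le_of_norm_le_const (μ := (μH[1] : Measure T)) (f := s) (C := 1)
      (s := Rooted.seg o x \ Rooted.seg o y) (by rw [meas_seg_diff h]; exact ENNReal.ofReal_lt_top)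
      (fun ω _ => by rw [Real.norm_eq_abs]; exact hs.le ω)
    rw [Real.norm_eq_abs, one_mul, measureReal_def, meas_seg_diff h,
      ENNReal.toReal_ofReal (by have := mt_le_left (o := o) x y; linarith)] at h4
    exact h4
  rw [← h1, ← h2]
  have h5 := h3 x y
  have h6 := h3 y x
  rw [mt_comm y x] at h6
  have h7 : (∫ ω in Rooted.seg o x ∩ Rooted.seg o y, s ω ∂μH[1]) +
      (∫ ω in Rooted.seg o x \ Rooted.seg o y, s ω ∂μH[1]) -
      ((∫ ω in Rooted.seg o x ∩ Rooted.seg o y, s ω ∂μH[1]) +
      (∫ ω in Rooted.seg o y \ Rooted.seg o x, s ω ∂μH[1])) =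
      (∫ ω in Rooted.seg o x \ Rooted.seg o y, s ω ∂μH[1]) -
      (∫ ω in Rooted.seg o y \ Rooted.seg o x, s ω ∂μH[1]) := by ring
  rw [h7, dist_eq_mt (o := o)]
  refine (abs_sub _ _).trans ?_
  linarith

/-- the Lipschitz function with derivative `s` -/
def lipOf (s : T → ℝ) (hs : Dens s) : Lip0 T o :=
  Lip0.mk (fun x => ∫ ω in Rooted.seg o x, s ω ∂μH[1])
    (by
      have : μH[1] (Rooted.seg o o) = 0 := by rw [meas_seg h, dist_self, ENNReal.ofReal_zero]
      rw [setIntegral_measure_zero _ this])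
    1 zero_le_one (fun x y => by rw [one_mul]; exact lip_bound h hs x y)

theorem lipOf_norm (s : T → ℝ) (hs : Dens s) : ‖lipOf h s hs‖ ≤ 1 :=
  Lip0.norm_le' _ zero_le_one (fun x y => by rw [one_mul]; exact lip_bound h hs x y)

/-- `φ` is the density of `D`. -/
structure Rep (D : StrongDual ℝ (Lip0 T o)) (φ : T → ℝ) : Prop where
  meas : Measurable φ
  integ : Integrable φ μH[1]
  eval : ∀ (s : T → ℝ) (hs : Dens s), D (lipOf h s hs) = ∫ ω, s ω * φ ω ∂μH[1]

theorem mulInt {s φ : T → ℝ} (hs : Dens s) (hφ : Integrable φ (μH[1] : Measure T)) :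
    Integrable (fun ω => s ω * φ ω) (μH[1] : Measure T) :=
  hφ.bdd_mul hs.meas.aestronglyMeasurable (c := 1)
    (Filter.Eventually.of_forall fun ω => by rw [Real.norm_eq_abs]; exact hs.le ω)

theorem Rep.dlt (x : T) : Rep h (dlt T o x) ((Rooted.seg o x).indicator fun _ => (1 : ℝ)) where
  meas := measurable_const.indicator (measurableSet_seg x)
  integ := by
    rw [integrable_indicator_iff (measurableSet_seg x)]
    refine integrableOn_const ?_
    rw [meas_seg h]; exact ENNReal.ofReal_ne_top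
  eval s hs := by
    rw [dlt_apply]
    show (∫ ω in Rooted.seg o x, s ω ∂μH[1]) = _
    rw [← integral_indicator (measurableSet_seg x)]
    refine integral_congr_ae (Filter.Eventually.of_forall fun ω => ?_)
    by_cases hω : ω ∈ Rooted.seg o x
    · simp [hω]
    · simp [hω]

theorem Rep.add {D E : StrongDual ℝ (Lip0 T o)} {φ ψ : T → ℝ} (hD : Rep h D φ) (hE : Rep h E ψ) :
    Rep h (D + E) (fun ω => φ ω + ψ ω) where
  meas := hD.meas.add hE.meas
  integ := hD.integ.add hE.integ
  eval s hs := by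
    rw [_root_.add_apply, hD.eval, hE.eval, ← integral_add (mulInt hs hD.integ) (mulInt hs hE.integ)]
    refine integral_congr_ae (Filter.Eventually.of_forall fun ω => ?_)
    simp only
    ring

theorem Rep.smul {D : StrongDual ℝ (Lip0 T o)} {φ : T → ℝ} (c : ℝ) (hD : Rep h D φ) :
    Rep h (c • D) (fun ω => c * φ ω) where
  meas := hD.meas.const_mul c
  integ := hD.integ.const_mul c
  eval s hs := by
    rw [_root_.smul_apply, hD.eval, smul_eq_mul, ← integral_const_mul]
    refine integral_congr_ae (Filter.Eventually.of_forall fun ω => ?_)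
    simp only
    ring

theorem Rep.zero : Rep h (0 : StrongDual ℝ (Lip0 T o)) (fun _ => 0) where
  meas := measurable_const
  integ := integrable_zero _ _ _
  eval s hs := by simp

theorem Rep.sub {D E : StrongDual ℝ (Lip0 T o)} {φ ψ : T → ℝ} (hD : Rep h D φ) (hE : Rep h E ψ) :
    Rep h (D - E) (fun ω => φ ω - ψ ω) := by
  have h1 := hD.add h (hE.smul h (-1))
  have h2 : D + (-1 : ℝ) • E = D - E := by
    ext f
    rw [_root_.add_apply, _root_.smul_apply, _root_.sub_apply, smul_eq_mul]
    ring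
  rw [h2] at h1
  convert h1 using 2
  ring

theorem Rep.sum {ι : Type} (J : Finset ι) (D : ι → StrongDual ℝ (Lip0 T o)) (φ : ι → T → ℝ)
    (hD : ∀ i ∈ J, Rep h (D i) (φ i)) : Rep h (∑ i ∈ J, D i) (fun ω => ∑ i ∈ J, φ i ω) := by
  classical
  induction J using Finset.induction_on with
  | empty => simpa using Rep.zero h
  | insert a J ha ih =>
    simp only [Finset.sum_insert ha]
    exact (hD a (Finset.mem_insert_self _ _)).add h
      (ih fun i hi => hD i (Finset.mem_insert_of_mem hi))

/-- The `L¹` bound. -/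
theorem Rep.bound {D : StrongDual ℝ (Lip0 T o)} {φ : T → ℝ} (hD : Rep h D φ) :
    ∫ ω, |φ ω| ∂μH[1] ≤ ‖D‖ := by
  have hs : Dens (fun ω => if 0 ≤ φ ω then (1 : ℝ) else -1) :=
    ⟨Measurable.ite (measurableSet_le measurable_const hD.meas) measurable_const measurable_const,
      fun ω => by split_ifs <;> simp⟩
  have h1 := hD.eval _ hs
  have h2 : ∫ ω, |φ ω| ∂μH[1] = D (lipOf h _ hs) := by
    rw [h1]
    refine integral_congr_ae (Filter.Eventually.of_forall fun ω => ?_)
    simp only
    split_ifs with h3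
    · rw [abs_of_nonneg h3, one_mul]
    · push Not at h3
      rw [abs_of_neg h3]; ring
  rw [h2]
  refine (le_abs_self _).trans ((D.le_opNorm _).trans ?_)
  exact mul_le_of_le_one_right (norm_nonneg _) (lipOf_norm h _ hs)

end Pool.Agent.X104.RT
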