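import Pool.Agent.H266R3.LDef

/-!
Rooted real trees from heights and meets.
-/

set_option autoImplicit false

noncomputable section

open Set Filter Topology MeasureTheory Measure

namespace Pool.Agent.X104.RT

/-- `A` is an arc joining `x` to `y`. -/
def IsArc {T : Type} [MetricSpace T] (x y : T) (A : Set T) : Prop :=
  ∃ α : unitInterval → T, Continuous α ∧ Function.Injective α ∧ α 0 = x ∧ α 1 = y ∧
    Set.range α = A

/-- `T` is an `ℝ`-tree: any two distinct points `x, y` are joined by a unique arc, and this arc is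
isometric to `[0, d(x,y)]`. -/
def IsRTree (T : Type) [MetricSpace T] : Prop :=
  ∀ x y : T, x ≠ y → ∃ A : Set T, IsArc x y A ∧ (∀ B : Set T, IsArc x y B → B = A) ∧
    ∃ φ : Set.Icc (0 : ℝ) (dist x y) → T, Isometry φ ∧ Set.range φ = A

section

variable {T : Type} [MetricSpace T] {o : T}

/-- the height of the meet -/
def mt (o x y : T) : ℝ := (dist o x + dist o y - dist x y) / 2

/-- A metric space with a base point which is a real tree. -/
structure Rooted (T : Type) [MetricSpace T] (o : T) : Prop where
  ultra : ∀ x y z : T, min (mt o x y) (mt o y z) ≤ mt o x z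
  trunc : ∀ (x : T) (s : ℝ), 0 ≤ s → s ≤ dist o x → ∃ z, dist o z = s ∧ mt o z x = s

theorem mt_comm (x y : T) : mt o x y = mt o y x := by
  unfold mt; rw [dist_comm x y]; ring

theorem mt_self (x : T) : mt o x x = dist o x := by
  unfold mt; rw [dist_self]; ring

theorem mt_le_left (x y : T) : mt o x y ≤ dist o x := by
  unfold mt
  have := dist_triangle o x y
  linarith

theorem mt_le_right (x y : T) : mt o x y ≤ dist o y := by
  rw [mt_comm]; exact mt_le_left y x

theorem mt_nonneg (x y : T) : 0 ≤ mt o x y := by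
  unfold mt
  have := dist_triangle x o y
  rw [dist_comm x o] at this
  linarith

theorem dist_eq_mt (x y : T) : dist x y = dist o x + dist o y - 2 * mt o x y := by
  unfold mt; ring

theorem mt_cont (x : T) : Continuous fun z => mt o z x := by
  unfold mt
  fun_prop

namespace Rooted

variable (h : Rooted T o)
include h

theorem min_le (x y z : T) : min (mt o x y) (mt o y z) ≤ mt o x z := h.ultra x y z

open Classical in
/-- the point at height `s` below `x` -/
def tr (x : T) (s : ℝ) : T := if hs : 0 ≤ s ∧ s ≤ dist o x then (h.trunc x s hs.1 hs.2).choose else o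

theorem tr_ht (x : T) {s : ℝ} (h0 : 0 ≤ s) (h1 : s ≤ dist o x) : dist o (h.tr x s) = s := by
  unfold tr
  rw [dif_pos ⟨h0, h1⟩]
  exact (h.trunc x s h0 h1).choose_spec.1

theorem tr_mt_self (x : T) {s : ℝ} (h0 : 0 ≤ s) (h1 : s ≤ dist o x) : mt o (h.tr x s) x = s := by
  unfold tr
  rw [dif_pos ⟨h0, h1⟩]
  exact (h.trunc x s h0 h1).choose_spec.2

theorem tr_mt (x y : T) {s : ℝ} (h0 : 0 ≤ s) (h1 : s ≤ dist o x) :
    mt o (h.tr x s) y = min s (mt o x y) := by
  have e1 := h.tr_mt_self x h0 h1
  have e2 := h.tr_ht x h0 h1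
  apply le_antisymm
  · refine le_min ?_ ?_
    · conv_rhs => rw [← e2]
      exact mt_le_left _ _
    · have h2 := h.ultra x (h.tr x s) y
      rw [mt_comm x, e1] at h2
      have h3 : mt o (h.tr x s) y ≤ s := by
        conv_rhs => rw [← e2]
        exact mt_le_left _ _
      rwa [min_eq_right h3] at h2
  · have h2 := h.ultra (h.tr x s) x y
    rwa [e1] at h2

omit h in
theorem eq_of_mt {x y : T} (h1 : dist o x = dist o y) (h2 : mt o x y = dist o x) : x = y := by
  rw [← dist_eq_zero, dist_eq_mt (o := o), h2, ← h1]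
  ring

theorem dist_tr (x y : T) {s t : ℝ} (h0 : 0 ≤ s) (h1 : s ≤ dist o x) (h2 : 0 ≤ t)
    (h3 : t ≤ dist o y) : dist (h.tr x s) (h.tr y t) = s + t - 2 * min s (min t (mt o x y)) := by
  rw [dist_eq_mt (o := o), h.tr_ht x h0 h1, h.tr_ht y h2 h3, h.tr_mt x _ h0 h1, mt_comm x,
    h.tr_mt y x h2 h3, mt_comm y]

theorem dist_tr_self (x : T) {s t : ℝ} (h0 : 0 ≤ s) (h1 : s ≤ dist o x) (h2 : 0 ≤ t)
    (h3 : t ≤ dist o x) : dist (h.tr x s) (h.tr x t) = |s - t| := by
  rw [h.dist_tr x x h0 h1 h2 h3, mt_self, min_eq_left h3]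
  rcases le_total s t with hst | hst
  · rw [min_eq_left hst, abs_of_nonpos (by linarith)]; ring
  · rw [min_eq_right hst, abs_of_nonneg (by linarith)]; ring

theorem tr_top (x : T) : h.tr x (dist o x) = x := by
  apply eq_of_mt (o := o)
  · rw [h.tr_ht x dist_nonneg le_rfl]
  · rw [h.tr_mt_self x dist_nonneg le_rfl, h.tr_ht x dist_nonneg le_rfl]

/-- points below `x` -/
theorem eq_tr {z x : T} (hz : mt o z x = dist o z) : z = h.tr x (dist o z) := by
  have h1 : dist o z ≤ dist o x := by rw [← hz]; exact mt_le_right _ _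
  apply eq_of_mt (o := o)
  · rw [h.tr_ht x dist_nonneg h1]
  · rw [mt_comm, h.tr_mt x z dist_nonneg h1, mt_comm, hz, min_self]

/-- equality of truncations at a common height below the meet -/
theorem tr_eq_tr {x y : T} {s : ℝ} (h0 : 0 ≤ s) (h1 : s ≤ mt o x y) : h.tr x s = h.tr y s := by
  have hx := h1.trans (mt_le_left x y)
  have hy := h1.trans (mt_le_right x y)
  apply eq_of_mt (o := o)
  · rw [h.tr_ht x h0 hx, h.tr_ht y h0 hy]
  · rw [h.tr_ht x h0 hx, h.tr_mt x _ h0 hx, mt_comm x, h.tr_mt y x h0 hy, mt_comm y,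
      min_eq_left h1, min_self]

/-- the geodesic from `x` to `y` -/
def geo (x y : T) (r : ℝ) : T :=
  if r ≤ dist o x - mt o x y then h.tr x (dist o x - r)
  else h.tr y (mt o x y + (r - (dist o x - mt o x y)))

theorem geo_isom (x y : T) {r r' : ℝ} (h0 : 0 ≤ r) (hrr : r ≤ r') (h1 : r' ≤ dist x y) :
    dist (h.geo x y r) (h.geo x y r') = r' - r := by
  have hm := mt_nonneg (o := o) x y
  have hmx := mt_le_left (o := o) x y
  have hmy := mt_le_right (o := o) x y
  rw [dist_eq_mt (o := o)] at h1
  unfold geo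
  split_ifs with a b b
  · rw [h.dist_tr_self x (by linarith) (by linarith) (by linarith) (by linarith),
      abs_of_nonneg (by linarith)]
    ring
  · push Not at b
    rw [h.dist_tr x y (by linarith) (by linarith) (by linarith) (by linarith)]
    rw [min_eq_right (a := mt o x y + (r' - (dist o x - mt o x y))) (by linarith),
      min_eq_right (by linarith)]
    ring
  · linarith
  · push Not at a b
    rw [h.dist_tr_self y (by linarith) (by linarith) (by linarith) (by linarith),
      abs_of_nonpos (by linarith)]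
    ring

theorem geo_zero (x y : T) : h.geo x y 0 = x := by
  unfold geo
  rw [if_pos (by have := mt_le_left (o := o) x y; linarith), sub_zero, h.tr_top]

theorem geo_end (x y : T) : h.geo x y (dist x y) = y := by
  have hmy := mt_le_right (o := o) x y
  unfold geo
  split_ifs with a
  · rw [dist_eq_mt (o := o) x y] at a ⊢
    have h1 : dist o y = mt o x y := by linarith
    have h2 : dist o x - (dist o x + dist o y - 2 * mt o x y) = dist o y := by rw [h1]; ring
    rw [h2]
    have h3 : h.tr x (dist o y) = h.tr y (dist o y) := h.tr_eq_tr dist_nonneg h1.le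
    rw [h3, h.tr_top]
  · rw [dist_eq_mt (o := o) x y]
    have h2 : mt o x y + (dist o x + dist o y - 2 * mt o x y - (dist o x - mt o x y)) =
        dist o y := by ring
    rw [h2, h.tr_top]

theorem geo_isometry (x y : T) :
    Isometry fun r : Set.Icc (0 : ℝ) (dist x y) => h.geo x y (r : ℝ) := by
  refine Isometry.of_dist_eq fun r r' => ?_
  rw [Subtype.dist_eq, Real.dist_eq]
  rcases le_total (r : ℝ) r' with hr | hr
  · rw [h.geo_isom x y r.2.1 hr r'.2.2, abs_of_nonpos (by linarith)]; ring
  · rw [dist_comm, h.geo_isom x y r'.2.1 hr r.2.2, abs_of_nonneg (by linarith)]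

/-- Any path from `x` to `y` meets every point strictly between the meet and `x`. -/
theorem mem_range_of_between {x y : T} (α : unitInterval → T) (hα : Continuous α) (hx : α 0 = x)
    (hy : α 1 = y) {s : ℝ} (h0 : mt o x y < s) (h1 : s < dist o x) : h.tr x s ∈ Set.range α := by
  by_contra hcon
  have hs0 : 0 ≤ s := (mt_nonneg x y).trans h0.le
  set z := h.tr x s with hz
  -- two open sets
  set A : Set T := {w | s < mt o w x} with hA
  set B : Set T := {w | mt o w x ≤ s} \ {z} with hB
  have hAo : IsOpen A := isOpen_lt continuous_const (mt_cont x)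
  have hBo : IsOpen B := by
    rw [Metric.isOpen_iff]
    intro w hw
    obtain ⟨hw1, hw2⟩ := hw
    have hw1' : mt o w x ≤ s := hw1
    rcases lt_or_eq_of_le hw1' with hlt | heq
    · -- strictly below
      have : IsOpen {w : T | mt o w x < s} := isOpen_lt (mt_cont x) continuous_const
      obtain ⟨r, hr, hrs⟩ := Metric.isOpen_iff.mp this w hlt
      refine ⟨r, hr, fun w' hw' => ⟨(le_of_lt (hrs hw') : mt o w' x ≤ s), ?_⟩⟩
      intro hw'z
      have h2 : mt o w' x < s := hrs hw'
      rw [Set.mem_singleton_iff.mp hw'z, hz, h.tr_mt_self x hs0 h1.le] at h2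
      exact lt_irrefl _ h2
    · -- another branch at `z`
      have h2 : s < dist o w := by
        rcases lt_or_eq_of_le (mt_le_left (o := o) w x) with h3 | h3
        · rwa [heq] at h3
        · exfalso
          apply hw2
          rw [Set.mem_singleton_iff, hz]
          have := h.eq_tr (z := w) (x := x) h3
          rw [← h3, heq] at this
          exact this
      have : IsOpen {w' : T | s < mt o w' w} := isOpen_lt continuous_const (mt_cont w)
      obtain ⟨r, hr, hrs⟩ := Metric.isOpen_iff.mp this w (by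
        show s < mt o w w
        rwa [mt_self])
      refine ⟨r, hr, fun w' hw' => ?_⟩
      have h3 : s < mt o w' w := hrs hw'
      have h4 : mt o w' x ≤ s := by
        by_contra hc
        push Not at hc
        have h5 := h.ultra w w' x
        rw [mt_comm w w', heq] at h5
        have h6 : s < min (mt o w' w) (mt o w' x) := lt_min h3 hc
        linarith
      refine ⟨h4, ?_⟩
      intro h5
      have h6 : s < dist o w' := h3.trans_le (mt_le_left _ _)
      rw [Set.mem_singleton_iff.mp h5, hz, h.tr_ht x hs0 h1.le] at h6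
      exact lt_irrefl _ h6
  have hcov : (Set.univ : Set unitInterval) ⊆ α ⁻¹' A ∪ α ⁻¹' B := by
    intro r _
    rcases lt_or_ge s (mt o (α r) x) with h2 | h2
    · exact Or.inl h2
    · refine Or.inr ⟨h2, ?_⟩
      intro h3
      exact hcon ⟨r, Set.mem_singleton_iff.mp h3⟩
  have hpre : IsPreconnected (Set.univ : Set unitInterval) := isPreconnected_univ
  obtain ⟨r, -, hr1, hr2⟩ := hpre (α ⁻¹' A) (α ⁻¹' B) (hAo.preimage hα) (hBo.preimage hα) hcov
    ⟨0, trivial, by
      show s < mt o (α 0) x
      rw [hx, mt_self]; exact h1⟩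
    ⟨1, trivial, by
      refine ⟨?_, ?_⟩
      · show mt o (α 1) x ≤ s
        rw [hy, mt_comm]; exact h0.le
      · intro h3
        exact hcon ⟨1, Set.mem_singleton_iff.mp h3⟩⟩
  have hr1' : s < mt o (α r) x := hr1
  have hr2' : mt o (α r) x ≤ s := hr2.1
  linarith

/-- Any path from `x` to `y` contains the geodesic. -/
theorem geo_subset_range {x y : T} (hxy : x ≠ y) (α : unitInterval → T) (hα : Continuous α)
    (hx : α 0 = x) (hy : α 1 = y) : ∀ r ∈ Set.Icc (0 : ℝ) (dist x y), h.geo x y r ∈ Set.range α := by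
  have hD : 0 < dist x y := dist_pos.mpr hxy
  have hcl : IsClosed (Set.range α) := (isCompact_range hα).isClosed
  set a : ℝ := dist o x - mt o x y with ha
  have ha0 : 0 ≤ a := by have := mt_le_left (o := o) x y; linarith
  have hDa : dist x y = a + (dist o y - mt o x y) := by rw [dist_eq_mt (o := o), ha]; ring
  have hb0 : 0 ≤ dist o y - mt o x y := by have := mt_le_right (o := o) x y; linarith
  have hm := mt_nonneg (o := o) x y
  -- interior points except the branch point
  have h1 : ∀ r, 0 < r → r < dist x y → r ≠ a → h.geo x y r ∈ Set.range α := by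
    intro r hr0 hr1 hra
    rcases lt_or_gt_of_ne hra with hlt | hgt
    · unfold geo
      rw [if_pos hlt.le]
      exact h.mem_range_of_between α hα hx hy (by linarith) (by linarith)
    · unfold geo
      rw [if_neg (not_le.mpr hgt)]
      have h2 := h.mem_range_of_between (x := y) (y := x) (fun r => α (unitInterval.symm r))
        (hα.comp unitInterval.continuous_symm) (by simpa using hy) (by simpa using hx)
        (s := mt o x y + (r - a)) (by rw [mt_comm]; linarith) (by linarith)
      obtain ⟨r', hr'⟩ := h2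
      exact ⟨unitInterval.symm r', hr'⟩
  -- density
  have hcont : ContinuousOn (h.geo x y) (Set.Icc (0 : ℝ) (dist x y)) := by
    rw [continuousOn_iff_continuous_domRestrict]
    exact (h.geo_isometry x y).continuous
  intro r hr
  have h2 : r ∈ closure (Set.Ioo (0 : ℝ) (dist x y) ∩ {a}ᶜ) := by
    have h3 : closure (Set.Ioo (0 : ℝ) (dist x y)) = Set.Icc 0 (dist x y) := closure_Ioo hD.ne
    have h4 : Dense ({a}ᶜ : Set ℝ) := dense_compl_singleton a
    rw [← h3] at hr
    exact closure_minimal (h4.open_subset_closure_inter isOpen_Ioo) isClosed_closure hr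
  have h5 : h.geo x y r ∈ closure (h.geo x y '' (Set.Ioo (0 : ℝ) (dist x y) ∩ {a}ᶜ)) := by
    have h6 : ContinuousWithinAt (h.geo x y) (Set.Ioo (0 : ℝ) (dist x y) ∩ {a}ᶜ) r :=
      (hcont r hr).mono (fun z hz => ⟨hz.1.1.le, hz.1.2.le⟩)
    exact h6.mem_closure_image h2
  refine closure_minimal ?_ hcl h5
  rintro _ ⟨r', hr', rfl⟩
  exact h1 r' hr'.1.1 hr'.1.2 hr'.2

/-- The unique arc property. -/
theorem isRTree : IsRTree T := by
  intro x y hxy
  have hD : 0 < dist x y := dist_pos.mpr hxy
  set φ : Set.Icc (0 : ℝ) (dist x y) → T := fun r => h.geo x y (r : ℝ) with hφ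
  have hiso : Isometry φ := h.geo_isometry x y
  refine ⟨Set.range φ, ?_, ?_, φ, hiso, rfl⟩
  · -- the geodesic is an arc
    have hpar : ∀ r : unitInterval, (r : ℝ) * dist x y ∈ Set.Icc (0 : ℝ) (dist x y) := fun r =>
      ⟨mul_nonneg (unitInterval.nonneg r) hD.le,
        mul_le_of_le_one_left hD.le (unitInterval.le_one r)⟩
    set ψ : unitInterval → T := fun r => φ ⟨(r : ℝ) * dist x y, hpar r⟩ with hψ
    refine ⟨ψ, ?_, ?_, ?_, ?_, ?_⟩
    · exact hiso.continuous.comp (by fun_prop)
    · intro r r' hrr
      have h1 : (⟨(r : ℝ) * dist x y, hpar r⟩ : Set.Icc (0 : ℝ) (dist x y)) =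
        ⟨(r' : ℝ) * dist x y, hpar r'⟩ := hiso.injective hrr
      have h2 : (r : ℝ) * dist x y = (r' : ℝ) * dist x y := congrArg Subtype.val h1
      exact Subtype.ext (mul_right_cancel₀ hD.ne' h2)
    · show h.geo x y (((0 : unitInterval) : ℝ) * dist x y) = x
      rw [Set.Icc.coe_zero, zero_mul, h.geo_zero]
    · show h.geo x y (((1 : unitInterval) : ℝ) * dist x y) = y
      rw [Set.Icc.coe_one, one_mul, h.geo_end]
    · ext z
      constructor
      · rintro ⟨r, rfl⟩
        exact ⟨_, rfl⟩
      · rintro ⟨⟨r, hr⟩, rfl⟩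
        refine ⟨⟨r / dist x y, div_nonneg hr.1 hD.le, (div_le_one hD).mpr hr.2⟩, ?_⟩
        show h.geo x y (r / dist x y * dist x y) = h.geo x y r
        rw [div_mul_cancel₀ _ hD.ne']
  · rintro B ⟨α, hα, hinj, hx, hy, rfl⟩
    have hsub := h.geo_subset_range hxy α hα hx hy
    have hemb : IsClosedEmbedding α := hα.isClosedEmbedding hinj
    have himg : α '' (α ⁻¹' Set.range φ) = Set.range φ := by
      rw [Set.image_preimage_eq_inter_range, Set.inter_eq_left]
      rintro _ ⟨r, rfl⟩
      exact hsub r r.2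
    have hpre : IsPreconnected (α ⁻¹' Set.range φ) := by
      rw [← hemb.isEmbedding.isInducing.isPreconnected_image, himg]
      have : PreconnectedSpace (Set.Icc (0 : ℝ) (dist x y)) :=
        Subtype.preconnectedSpace isPreconnected_Icc
      exact isPreconnected_range hiso.continuous
    have h0 : (0 : unitInterval) ∈ α ⁻¹' Set.range φ := by
      refine ⟨⟨0, le_rfl, hD.le⟩, ?_⟩
      simp only [hφ]
      rw [h.geo_zero, hx]
    have h1 : (1 : unitInterval) ∈ α ⁻¹' Set.range φ := by
      refine ⟨⟨dist x y, hD.le, le_rfl⟩, ?_⟩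
      simp only [hφ]
      rw [h.geo_end, hy]
    have huniv : α ⁻¹' Set.range φ = Set.univ := by
      rw [Set.eq_univ_iff_forall]
      intro r
      exact hpre.Icc_subset h0 h1 ⟨r.2.1, r.2.2⟩
    rw [← himg, huniv, Set.image_univ]

/-- the points below `x` -/
def seg (o x : T) : Set T := {z | mt o z x = dist o z}

end Rooted

end

end Pool.Agent.X104.RT
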