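import Pool.Agent.X104.RT.Tree

/-!
The sequence of balanced signed sums on the levels of the tree, its densities and the test
functions.
-/

set_option autoImplicit false

noncomputable section

open Set Filter Topology MeasureTheory Measure
open Pool.Agent.H266R3.LF

namespace Pool.Agent.X104.RT

/-- extension of a finite word by `false` -/
def ext0 {n : ℕ} (v : Fin n → Bool) : ℕ → Bool := fun i => if h : i < n then v ⟨i, h⟩ else false

/-- the word `w` followed by `b` -/
def snc {n : ℕ} (w : Fin n → Bool) (b : Bool) : Fin (n + 1) → Bool :=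
  Fin.snoc (α := fun _ => Bool) w b

theorem ext0_snc_lt {n : ℕ} (w : Fin n → Bool) (b : Bool) {i : ℕ} (hi : i < n) :
    ext0 (snc w b) i = w ⟨i, hi⟩ := by
  unfold ext0 snc
  rw [dif_pos (by omega : i < n + 1)]
  have : (⟨i, by omega⟩ : Fin (n + 1)) = Fin.castSucc ⟨i, hi⟩ := rfl
  rw [this, Fin.snoc_castSucc]

theorem ext0_snc_last {n : ℕ} (w : Fin n → Bool) (b : Bool) : ext0 (snc w b) n = b := by
  unfold ext0 snc
  rw [dif_pos (by omega : n < n + 1)]
  have : (⟨n, by omega⟩ : Fin (n + 1)) = Fin.last n := rfl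
  rw [this, Fin.snoc_last]

theorem ext0_snc_gt {n : ℕ} (w : Fin n → Bool) (b : Bool) {i : ℕ} (hi : n < i) :
    ext0 (snc w b) i = false := by
  unfold ext0
  rw [dif_neg (by omega)]

theorem ext0_snc_ne {n : ℕ} (w : Fin n → Bool) (b b' : Bool) {i : ℕ} (hi : i ≠ n) :
    ext0 (snc w b) i = ext0 (snc w b') i := by
  rcases lt_or_gt_of_ne hi with h | h
  · rw [ext0_snc_lt w b h, ext0_snc_lt w b' h]
  · rw [ext0_snc_gt w b h, ext0_snc_gt w b' h]

/-- the vertex of level `j + 1` over the word `v` -/
def zp (j : ℕ) (v : Fin (j ^ 2 + 1) → Bool) : Pre := ⟨ext0 v, hh (j + 1), hh_nonneg _, (hh_lt_one _).le⟩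

/-- the vertex over the word `w b` -/
def zz (j : ℕ) (w : Fin (j ^ 2) → Bool) (b : Bool) : Tr := pt (zp j (snc w b))

/-- the `j`-th element of the sequence -/
def gam (j : ℕ) : StrongDual ℝ (Lip0 Tr root) :=
  ∑ w : Fin (j ^ 2) → Bool, (dlt Tr root (zz j w false) - dlt Tr root (zz j w true))

theorem spl_pair {j : ℕ} (w : Fin (j ^ 2) → Bool) (b b' : Bool) :
    hh j ≤ spl (ext0 (snc w b)) (ext0 (snc w b')) := by
  have h1 := spl_ge (v := ext0 (snc w b)) (w := ext0 (snc w b')) (n := j ^ 2)
    (fun i hi => ext0_snc_ne w b b' hi.ne)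
  rwa [lev_sq] at h1

theorem dist_pair {j : ℕ} (w : Fin (j ^ 2) → Bool) (b b' : Bool) :
    dist (zz j w b) (zz j w b') ≤ 2 * (hh (j + 1) - hh j) := by
  unfold zz
  rw [dist_pt]
  unfold Pre.meet zp
  simp only
  have h1 := spl_pair w b b'
  have h2 := hh_mono (Nat.le_succ j)
  rw [Nat.succ_eq_add_one] at h2
  rw [min_self]
  have : hh j ≤ min (hh (j + 1)) (spl (ext0 (snc w b)) (ext0 (snc w b'))) := le_min h2 h1
  linarith

theorem card_words (n : ℕ) : (Fintype.card (Fin n → Bool) : ℝ) = 2 ^ n := by
  rw [Fintype.card_fun, Fintype.card_bool, Fintype.card_fin]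
  push_cast
  rfl

theorem len_le (j : ℕ) : hh (j + 1) - hh j ≤ (1 / 2 : ℝ) ^ (j ^ 2) := by
  have := hh_lt_one (j + 1)
  unfold hh at this ⊢
  have h1 : (0 : ℝ) < (1 / 2 : ℝ) ^ ((j + 1) ^ 2) := by positivity
  linarith

theorem two_half (n : ℕ) : (2 : ℝ) ^ n * (1 / 2 : ℝ) ^ n = 1 := by
  rw [← mul_pow]; norm_num

theorem gam_norm (j : ℕ) : ‖gam j‖ ≤ 2 := by
  unfold gam
  calc ‖∑ w : Fin (j ^ 2) → Bool, (dlt Tr root (zz j w false) - dlt Tr root (zz j w true))‖
      ≤ ∑ w : Fin (j ^ 2) → Bool, ‖dlt Tr root (zz j w false) - dlt Tr root (zz j w true)‖ :=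
        norm_sum_le _ _
    _ ≤ ∑ _w : Fin (j ^ 2) → Bool, 2 * (1 / 2 : ℝ) ^ (j ^ 2) := by
        refine Finset.sum_le_sum fun w _ => ?_
        have h1 := norm_dlt_sub_le (M := Tr) (o := root) (zz j w false) (zz j w true)
        have h2 := dist_pair w false true
        have h3 := len_le j
        linarith
    _ = 2 := by
        rw [Finset.sum_const, Finset.card_univ, nsmul_eq_mul, card_words]
        have := two_half (j ^ 2)
        linear_combination 2 * this

instance : MeasurableSpace Tr := borel Tr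
instance : BorelSpace Tr := ⟨rfl⟩

/-- the density -/
def phi (j : ℕ) (ω : Tr) : ℝ :=
  ∑ w : Fin (j ^ 2) → Bool, (ind root (zz j w false) ω - ind root (zz j w true) ω)

theorem gam_rep (j : ℕ) : Rep rooted (gam j) (phi j) := by
  unfold gam phi
  refine Rep.sum rooted Finset.univ _ (fun w ω => ind root (zz j w false) ω - ind root (zz j w true) ω)
    fun w _ => ?_
  exact (Rep.dlt rooted _).sub rooted (Rep.dlt rooted _)

theorem ind_le (x ω : Tr) : 0 ≤ ind root x ω ∧ ind root x ω ≤ 1 := by
  by_cases h : ω ∈ Rooted.seg root x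
  · rw [ind_mem h]; exact ⟨zero_le_one, le_rfl⟩
  · rw [ind_not h]; exact ⟨le_rfl, zero_le_one⟩

theorem phi_le (j : ℕ) (ω : Tr) : |phi j ω| ≤ 1 := by
  classical
  obtain ⟨x, rfl⟩ := pt_surj ω
  rcases le_or_gt x.t (hh j) with hx | hx
  · -- below the level: the pairs cancel
    have h1 : phi j (pt x) = 0 := by
      unfold phi
      refine Finset.sum_eq_zero fun w _ => ?_
      have h2 : pt x ∈ Rooted.seg root (zz j w false) ↔ pt x ∈ Rooted.seg root (zz j w true) := by
        unfold zz
        rw [mem_seg_pt, mem_seg_pt]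
        unfold zp
        simp only
        constructor
        · rintro ⟨h3, h4⟩
          refine ⟨h3, ?_⟩
          exact (le_min h4 (hx.trans (spl_pair w false true))).trans (spl_ultra _ _ _)
        · rintro ⟨h3, h4⟩
          refine ⟨h3, ?_⟩
          exact (le_min h4 (hx.trans (spl_pair w true false))).trans (spl_ultra _ _ _)
      by_cases h3 : pt x ∈ Rooted.seg root (zz j w false)
      · rw [ind_mem h3, ind_mem (h2.mp h3), sub_self]
      · rw [ind_not h3, ind_not (fun h4 => h3 (h2.mpr h4)), sub_self]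
    rw [h1, abs_zero]
    exact zero_le_one
  · -- only one word
    set w0 : Fin (j ^ 2) → Bool := fun i => x.w i with hw0
    have h1 : phi j (pt x) = ind root (zz j w0 false) (pt x) - ind root (zz j w0 true) (pt x) := by
      unfold phi
      refine Finset.sum_eq_single w0 (fun w _ hw => ?_) (fun h => absurd (Finset.mem_univ _) h)
      obtain ⟨i, hi⟩ := Function.ne_iff.mp hw
      have h2 : ∀ b, pt x ∉ Rooted.seg root (zz j w b) := by
        intro b hb
        unfold zz at hb
        rw [mem_seg_pt] at hb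
        have h3 : spl x.w (zp j (snc w b)).w ≤ hh (lev i) := by
          refine spl_le ?_
          unfold zp
          simp only
          rw [ext0_snc_lt w b i.2]
          exact fun e => hi e.symm
        have h4 : hh (lev i) ≤ hh j := by
          refine hh_mono ?_
          rw [lev_le_iff]
          exact i.2.le
        have := hb.2
        linarith
      rw [ind_not (h2 false), ind_not (h2 true), sub_self]
    rw [h1, abs_le]
    have h2 := ind_le (zz j w0 false) (pt x)
    have h3 := ind_le (zz j w0 true) (pt x)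
    exact ⟨by linarith, by linarith⟩

/-! ### The test functions -/

/-- the part of height `t` in the `k`-th level -/
def cc (k : ℕ) (t : ℝ) : ℝ := min t (hh (k + 1)) - min t (hh k)

theorem cc_mono (k : ℕ) : Monotone (cc k) := by
  intro s t hst
  have h1 := hh_mono (Nat.le_succ k)
  rw [Nat.succ_eq_add_one] at h1
  unfold cc
  rcases le_total s (hh k) with a | a <;> rcases le_total s (hh (k + 1)) with b | b <;>
    rcases le_total t (hh k) with c | c <;> rcases le_total t (hh (k + 1)) with d | d <;>
    simp only [min_eq_left, min_eq_right, a, b, c, d] <;> linarith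

theorem cc_nonneg (k : ℕ) (t : ℝ) : 0 ≤ cc k t := by
  unfold cc
  have h1 := hh_mono (Nat.le_succ k)
  rw [Nat.succ_eq_add_one] at h1
  have := min_le_min_left t h1
  linarith

theorem cc_sum (K : ℕ) {t : ℝ} (ht : 0 ≤ t) : ∑ k ∈ Finset.range K, cc k t = min t (hh K) := by
  unfold cc
  rw [Finset.sum_range_sub (fun k => min t (hh k)), hh_zero, min_eq_right ht, sub_zero]

/-- sign of a bit -/
def sg (b : Bool) : ℝ := if b then -1 else 1

theorem sg_abs (b : Bool) : |sg b| = 1 := by
  unfold sg; cases b <;> simp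

/-- the terms of the test function -/
def trm (N : ℕ) (x : Pre) (k : ℕ) : ℝ := if N ≤ k then sg (x.w (k ^ 2)) * cc k x.t else 0

theorem trm_abs (N : ℕ) (x : Pre) (k : ℕ) : |trm N x k| ≤ cc k x.t := by
  unfold trm
  split_ifs
  · rw [abs_mul, sg_abs, one_mul, abs_of_nonneg (cc_nonneg _ _)]
  · rw [abs_zero]; exact cc_nonneg _ _

theorem cc_summable {t : ℝ} (ht : 0 ≤ t) : Summable fun k => cc k t := by
  refine summable_of_sum_range_le (c := t) (fun k => cc_nonneg _ _) fun K => ?_
  rw [cc_sum K ht]
  exact min_le_left _ _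

theorem trm_summable (N : ℕ) (x : Pre) : Summable (trm N x) :=
  Summable.of_norm_bounded (cc_summable x.h0) fun k => by
    rw [Real.norm_eq_abs]; exact trm_abs N x k

/-- the test function on representatives -/
def FF (N : ℕ) (x : Pre) : ℝ := ∑' k, trm N x k

theorem trm_diff (N : ℕ) (x y : Pre) (k : ℕ) :
    |trm N x k - trm N y k| ≤ (cc k x.t - cc k (x.meet y)) + (cc k y.t - cc k (x.meet y)) := by
  have hx := cc_mono k (Pre.meet_le_left x y)
  have hy := cc_mono k (Pre.meet_le_right x y)
  unfold trm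
  split_ifs with hN
  · have h1 : sg (x.w (k ^ 2)) * cc k (x.meet y) = sg (y.w (k ^ 2)) * cc k (x.meet y) := by
      rcases le_or_gt (x.meet y) (hh k) with h | h
      · have h2 : cc k (x.meet y) = 0 := by
          unfold cc
          have h1 := hh_mono (Nat.le_succ k)
          rw [Nat.succ_eq_add_one] at h1
          rw [min_eq_left h, min_eq_left (h.trans h1), sub_self]
        rw [h2, mul_zero, mul_zero]
      · have h2 : x.w (k ^ 2) = y.w (k ^ 2) := by
          by_contra hcon
          have h3 := spl_le hcon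
          rw [lev_sq] at h3
          have h4 : x.meet y ≤ spl x.w y.w := min_le_right _ _
          linarith
        rw [h2]
    have h2 : sg (x.w (k ^ 2)) * cc k x.t - sg (y.w (k ^ 2)) * cc k y.t =
        sg (x.w (k ^ 2)) * (cc k x.t - cc k (x.meet y)) -
          sg (y.w (k ^ 2)) * (cc k y.t - cc k (x.meet y)) := by
      linear_combination h1
    rw [h2]
    refine (abs_sub _ _).trans ?_
    rw [abs_mul, abs_mul, sg_abs, sg_abs, one_mul, one_mul, abs_of_nonneg (by linarith),
      abs_of_nonneg (by linarith)]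
  · rw [sub_self, abs_zero]
    linarith

theorem FF_lip (N : ℕ) (x y : Pre) : |FF N x - FF N y| ≤ dist x y := by
  have h1 : FF N x - FF N y = ∑' k, (trm N x k - trm N y k) :=
    ((trm_summable N x).tsum_sub (trm_summable N y)).symm
  have hs : Summable fun k => trm N x k - trm N y k :=
    (trm_summable N x).sub (trm_summable N y)
  have h2 : Tendsto (fun K => |∑ k ∈ Finset.range K, (trm N x k - trm N y k)|) atTop
      (𝓝 |∑' k, (trm N x k - trm N y k)|) := (hs.hasSum.tendsto_sum_nat).abs
  rw [h1]
  refine le_of_tendsto h2 (Filter.Eventually.of_forall fun K => ?_)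
  calc |∑ k ∈ Finset.range K, (trm N x k - trm N y k)|
      ≤ ∑ k ∈ Finset.range K, |trm N x k - trm N y k| := Finset.abs_sum_le_sum_abs _ _
    _ ≤ ∑ k ∈ Finset.range K,
        ((cc k x.t - cc k (x.meet y)) + (cc k y.t - cc k (x.meet y))) :=
        Finset.sum_le_sum fun k _ => trm_diff N x y k
    _ = (min x.t (hh K) - min (x.meet y) (hh K)) + (min y.t (hh K) - min (x.meet y) (hh K)) := by
        rw [Finset.sum_add_distrib, Finset.sum_sub_distrib, Finset.sum_sub_distrib,
          cc_sum K x.h0, cc_sum K y.h0, cc_sum K (Pre.meet_nonneg x y)]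
    _ ≤ dist x y := by
        rw [Pre.dist_def]
        have hx := Pre.meet_le_left x y
        have hy := Pre.meet_le_right x y
        have k1 : min x.t (hh K) - min (x.meet y) (hh K) ≤ x.t - x.meet y := by
          rcases le_total (x.meet y) (hh K) with a | a
          · rw [min_eq_left a]
            have := min_le_left x.t (hh K)
            linarith
          · rw [min_eq_right a, min_eq_right (a.trans hx)]
            linarith
        have k2 : min y.t (hh K) - min (x.meet y) (hh K) ≤ y.t - x.meet y := by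
          rcases le_total (x.meet y) (hh K) with a | a
          · rw [min_eq_left a]
            have := min_le_left y.t (hh K)
            linarith
          · rw [min_eq_right a, min_eq_right (a.trans hy)]
            linarith
        linarith

theorem FF_small (N : ℕ) (x : Pre) : |FF N x| ≤ 1 - hh N := by
  have h2 : Tendsto (fun K => |∑ k ∈ Finset.range K, trm N x k|) atTop
      (𝓝 |∑' k, trm N x k|) := ((trm_summable N x).hasSum.tendsto_sum_nat).abs
  refine le_of_tendsto h2 (Filter.Eventually.of_forall fun K => ?_)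
  calc |∑ k ∈ Finset.range K, trm N x k|
      ≤ ∑ k ∈ Finset.range K, |trm N x k| := Finset.abs_sum_le_sum_abs _ _
    _ ≤ ∑ k ∈ Finset.range K, (max (hh (k + 1)) (hh N) - max (hh k) (hh N)) := by
        refine Finset.sum_le_sum fun k _ => ?_
        have h1 := hh_mono (Nat.le_succ k)
        rw [Nat.succ_eq_add_one] at h1
        by_cases hN : N ≤ k
        · have h3 := hh_mono hN
          rw [max_eq_left h3, max_eq_left (h3.trans h1)]
          refine (trm_abs N x k).trans ?_
          unfold cc
          rcases le_total x.t (hh k) with a | a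
          · rw [min_eq_left a, min_eq_left (a.trans h1)]; linarith
          · rw [min_eq_right a]
            have := min_le_right x.t (hh (k + 1))
            linarith
        · unfold trm
          rw [if_neg hN, abs_zero]
          have := max_le_max_right (hh N) h1
          linarith
    _ = max (hh K) (hh N) - max (hh 0) (hh N) := Finset.sum_range_sub (fun k => max (hh k) (hh N)) K
    _ ≤ 1 - hh N := by
        have h3 : max (hh K) (hh N) ≤ 1 := max_le (hh_lt_one _).le (hh_lt_one _).le
        have h4 := le_max_right (hh 0) (hh N)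
        linarith

/-- the difference of the test function over a pair -/
theorem FF_pair (N j : ℕ) (hNj : N ≤ j) (w : Fin (j ^ 2) → Bool) :
    FF N (zp j (snc w false)) - FF N (zp j (snc w true)) = 2 * (hh (j + 1) - hh j) := by
  have h1 : FF N (zp j (snc w false)) - FF N (zp j (snc w true)) =
      ∑' k, (trm N (zp j (snc w false)) k - trm N (zp j (snc w true)) k) :=
    ((trm_summable N _).tsum_sub (trm_summable N _)).symm
  rw [h1, tsum_eq_single j]
  · unfold trm zp
    simp only
    rw [if_pos hNj, ext0_snc_last, ext0_snc_last]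
    have h2 : cc j (hh (j + 1)) = hh (j + 1) - hh j := by
      unfold cc
      rw [min_self, min_eq_right (hh_mono (Nat.le_succ j))]
    rw [if_pos hNj, h2]
    unfold sg
    simp only [Bool.false_eq_true, if_false, if_true]
    ring
  · intro k hk
    unfold trm zp
    simp only
    have h3 : k ^ 2 ≠ j ^ 2 := by
      intro e
      exact hk (Nat.pow_left_injective (n := 2) (by norm_num) e)
    rw [ext0_snc_ne w false true h3, sub_self]

/-- the test function on the tree -/
def FT (N : ℕ) (z : Tr) : ℝ := FF N (pt_surj z).choose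

theorem FT_pt (N : ℕ) (x : Pre) : FT N (pt x) = FF N x := by
  unfold FT
  have h1 := (pt_surj (pt x)).choose_spec
  have h2 := FF_lip N (pt_surj (pt x)).choose x
  have h3 : dist (pt_surj (pt x)).choose x = 0 := by
    rw [Pre.dist_def, ← dist_pt, h1, dist_self]
  rw [h3] at h2
  exact sub_eq_zero.mp (abs_nonpos_iff.mp h2)

theorem FT_lip (N : ℕ) (x y : Tr) : |FT N x - FT N y| ≤ 1 * dist x y := by
  obtain ⟨x, rfl⟩ := pt_surj x
  obtain ⟨y, rfl⟩ := pt_surj y
  rw [FT_pt, FT_pt, one_mul, dist_pt, ← Pre.dist_def]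
  exact FF_lip N x y

theorem FT_root (N : ℕ) : FT N root = 0 := by
  unfold root
  rw [FT_pt]
  unfold FF
  have : ∀ k, trm N ⟨fun _ => false, 0, le_rfl, zero_le_one⟩ k = 0 := by
    intro k
    unfold trm
    split_ifs
    · have : cc k 0 = 0 := by
        unfold cc
        rw [min_eq_left (hh_nonneg _), min_eq_left (hh_nonneg _), sub_self]
      simp only
      rw [this, mul_zero]
    · rfl
  simp only [this, tsum_zero]

/-- the test function as an element of `Lip₀` -/
def tf (N : ℕ) : Lip0 Tr root := Lip0.mk (FT N) (FT_root N) 1 zero_le_one (FT_lip N)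

theorem tf_norm (N : ℕ) : ‖tf N‖ ≤ 1 := Lip0.norm_le' _ zero_le_one (FT_lip N)

theorem tf_small (N : ℕ) (z : Tr) : |(tf N).fn z| ≤ 1 - hh N := by
  obtain ⟨x, rfl⟩ := pt_surj z
  show |FT N (pt x)| ≤ _
  rw [FT_pt]
  exact FF_small N x

theorem tf_gam (N j : ℕ) (hNj : N ≤ j) : 1 ≤ gam j (tf N) := by
  have h1 : gam j (tf N) = ∑ _w : Fin (j ^ 2) → Bool, 2 * (hh (j + 1) - hh j) := by
    unfold gam
    rw [_root_.sum_apply]
    refine Finset.sum_congr rfl fun w _ => ?_
    rw [_root_.sub_apply, dlt_apply, dlt_apply]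
    show FT N (pt _) - FT N (pt _) = _
    rw [FT_pt, FT_pt]
    exact FF_pair N j hNj w
  rw [h1, Finset.sum_const, Finset.card_univ, nsmul_eq_mul, card_words]
  unfold hh
  have h2 : (1 / 2 : ℝ) ^ ((j + 1) ^ 2) ≤ (1 / 2) * (1 / 2 : ℝ) ^ (j ^ 2) := by
    rw [← pow_succ']
    exact pow_le_pow_of_le_one (by norm_num) (by norm_num) (by nlinarith [Nat.zero_le j])
  have h3 := two_half (j ^ 2)
  have h4 : (0 : ℝ) < 2 ^ (j ^ 2) := by positivity
  have h5 : (2 : ℝ) ^ (j ^ 2) * (2 * ((1 / 2) * (1 / 2 : ℝ) ^ (j ^ 2))) ≤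
      2 ^ (j ^ 2) * (2 * ((1 - (1 / 2 : ℝ) ^ ((j + 1) ^ 2)) - (1 - (1 / 2 : ℝ) ^ (j ^ 2)))) := by
    gcongr
    linarith
  have h6 : (2 : ℝ) ^ (j ^ 2) * (2 * ((1 / 2) * (1 / 2 : ℝ) ^ (j ^ 2))) = 1 := by
    linear_combination h3
  linarith

end Pool.Agent.X104.RT
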