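import Pool.Agent.X104.RT.CondA

/-!
The compact real tree with branching of orders `2, 2, 8, 32, …` at heights `1 - 2^(-k²)`.
-/

set_option autoImplicit false

noncomputable section

open Set Filter Topology MeasureTheory Measure
open Pool.Agent.H266R3.LF

namespace Pool.Agent.X104.RT

/-- heights of the branching levels -/
def hh (k : ℕ) : ℝ := 1 - (1 / 2 : ℝ) ^ (k ^ 2)

theorem hh_zero : hh 0 = 0 := by simp [hh]

theorem hh_mono : Monotone hh := by
  intro a b hab
  unfold hh
  have : (1 / 2 : ℝ) ^ (b ^ 2) ≤ (1 / 2 : ℝ) ^ (a ^ 2) :=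
    pow_le_pow_of_le_one (by norm_num) (by norm_num) (Nat.pow_le_pow_left hab 2)
  linarith

theorem hh_nonneg (k : ℕ) : 0 ≤ hh k := by
  rw [← hh_zero]; exact hh_mono (Nat.zero_le k)

theorem hh_lt_one (k : ℕ) : hh k < 1 := by
  unfold hh
  have : (0 : ℝ) < (1 / 2 : ℝ) ^ (k ^ 2) := by positivity
  linarith

theorem exists_lev (i : ℕ) : ∃ k : ℕ, i ≤ k ^ 2 := ⟨i, by nlinarith [Nat.zero_le i, sq_nonneg (i : ℤ)]⟩

/-- the block containing the bit `i`: bits `(k-1)² < i ≤ k²` -/
def lev (i : ℕ) : ℕ := Nat.find (exists_lev i)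

theorem lev_le_iff {i k : ℕ} : lev i ≤ k ↔ i ≤ k ^ 2 := by
  unfold lev
  constructor
  · intro h
    exact (Nat.find_spec (exists_lev i)).trans (Nat.pow_le_pow_left h 2)
  · intro h
    exact Nat.find_min' _ h

theorem lev_mono : Monotone lev := by
  intro i j hij
  rw [lev_le_iff]
  exact hij.trans (lev_le_iff.mp le_rfl)

theorem lev_sq (k : ℕ) : lev (k ^ 2) = k := by
  apply le_antisymm
  · rw [lev_le_iff]
  · by_contra hcon
    push Not at hcon
    have h1 : lev (k ^ 2) ≤ k - 1 := by omega
    rw [lev_le_iff] at h1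
    have h2 : (k - 1) ^ 2 < k ^ 2 := Nat.pow_lt_pow_left (by omega) (by norm_num)
    omega

theorem lev_sq_succ (k : ℕ) : lev (k ^ 2 + 1) = k + 1 := by
  apply le_antisymm
  · rw [lev_le_iff]
    nlinarith [Nat.zero_le k]
  · by_contra hcon
    push Not at hcon
    have h1 : lev (k ^ 2 + 1) ≤ k := by omega
    rw [lev_le_iff] at h1
    omega

open Classical in
/-- splitting height of two ends -/
def spl (v w : ℕ → Bool) : ℝ := if v = w then 1 else hh (lev (PiNat.firstDiff v w))

theorem spl_self (v : ℕ → Bool) : spl v v = 1 := by simp [spl]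

theorem spl_comm (v w : ℕ → Bool) : spl v w = spl w v := by
  unfold spl
  rw [PiNat.firstDiff_comm]
  by_cases h : v = w
  · rw [if_pos h, if_pos h.symm]
  · rw [if_neg h, if_neg (Ne.symm h)]

theorem spl_nonneg (v w : ℕ → Bool) : 0 ≤ spl v w := by
  unfold spl
  split_ifs
  · exact zero_le_one
  · exact hh_nonneg _

theorem spl_le_one (v w : ℕ → Bool) : spl v w ≤ 1 := by
  unfold spl
  split_ifs
  · exact le_rfl
  · exact (hh_lt_one _).le

/-- agreement on `n` bits -/
theorem spl_ge {v w : ℕ → Bool} {n : ℕ} (h : ∀ i < n, v i = w i) : hh (lev n) ≤ spl v w := by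
  unfold spl
  split_ifs with hvw
  · exact (hh_lt_one _).le
  · refine hh_mono (lev_mono ?_)
    by_contra hcon
    push Not at hcon
    exact PiNat.apply_firstDiff_ne hvw (h _ hcon)

/-- disagreement at bit `i` -/
theorem spl_le {v w : ℕ → Bool} {i : ℕ} (h : v i ≠ w i) : spl v w ≤ hh (lev i) := by
  have hvw : v ≠ w := fun e => h (by rw [e])
  unfold spl
  rw [if_neg hvw]
  refine hh_mono (lev_mono ?_)
  by_contra hcon
  push Not at hcon
  exact h (PiNat.apply_eq_of_lt_firstDiff hcon)

theorem spl_ultra (u v w : ℕ → Bool) : min (spl u v) (spl v w) ≤ spl u w := by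
  by_cases huw : u = w
  · rw [huw, spl_self]
    exact (min_le_left _ _).trans (spl_le_one _ _)
  · by_cases huv : u = v
    · rw [huv]; exact min_le_right _ _
    · by_cases hvw : v = w
      · rw [hvw]; exact min_le_left _ _
      · have h1 := PiNat.min_firstDiff_le u v w huw
        unfold spl
        rw [if_neg huv, if_neg hvw, if_neg huw]
        have h2 := hh_mono (lev_mono h1)
        rcases le_total (PiNat.firstDiff u v) (PiNat.firstDiff v w) with h3 | h3
        · rw [min_eq_left h3] at h2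
          exact (min_le_left _ _).trans h2
        · rw [min_eq_right h3] at h2
          exact (min_le_right _ _).trans h2

/-- points of the tree before identification: a height on an infinite branch -/
structure Pre where
  w : ℕ → Bool
  t : ℝ
  h0 : 0 ≤ t
  h1 : t ≤ 1

/-- height of the meet -/
def Pre.meet (x y : Pre) : ℝ := min (min x.t y.t) (spl x.w y.w)

theorem Pre.meet_comm (x y : Pre) : x.meet y = y.meet x := by
  unfold Pre.meet
  rw [min_comm x.t, spl_comm]

theorem Pre.meet_self (x : Pre) : x.meet x = x.t := by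
  unfold Pre.meet
  rw [min_self, spl_self, min_eq_left x.h1]

theorem Pre.meet_le_left (x y : Pre) : x.meet y ≤ x.t := (min_le_left _ _).trans (min_le_left _ _)

theorem Pre.meet_le_right (x y : Pre) : x.meet y ≤ y.t := (min_le_left _ _).trans (min_le_right _ _)

theorem Pre.meet_nonneg (x y : Pre) : 0 ≤ x.meet y :=
  le_min (le_min x.h0 y.h0) (spl_nonneg _ _)

theorem Pre.meet_ultra (x y z : Pre) : min (x.meet y) (y.meet z) ≤ x.meet z := by
  refine le_min (le_min ?_ ?_) ?_
  · exact (min_le_left _ _).trans (Pre.meet_le_left _ _)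
  · exact (min_le_right _ _).trans (Pre.meet_le_right _ _)
  · refine le_trans ?_ (spl_ultra x.w y.w z.w)
    exact min_le_min (min_le_right _ _) (min_le_right _ _)

instance : PseudoMetricSpace Pre where
  dist x y := x.t + y.t - 2 * x.meet y
  dist_self x := by rw [Pre.meet_self]; ring
  dist_comm x y := by rw [Pre.meet_comm]; ring
  dist_triangle x y z := by
    have h1 := Pre.meet_ultra x y z
    have h2 := Pre.meet_le_right x y
    have h3 := Pre.meet_le_left y z
    rcases le_total (x.meet y) (y.meet z) with h | h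
    · rw [min_eq_left h] at h1; linarith
    · rw [min_eq_right h] at h1; linarith

theorem Pre.dist_def (x y : Pre) : dist x y = x.t + y.t - 2 * x.meet y := rfl

/-- The tree. -/
def Tr : Type := SeparationQuotient Pre

instance : MetricSpace Tr := inferInstanceAs (MetricSpace (SeparationQuotient Pre))

/-- the point of the tree -/
def pt (x : Pre) : Tr := SeparationQuotient.mk x

theorem pt_surj (z : Tr) : ∃ x : Pre, pt x = z := SeparationQuotient.surjective_mk z

theorem dist_pt (x y : Pre) : dist (pt x) (pt y) = x.t + y.t - 2 * x.meet y :=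
  SeparationQuotient.dist_mk x y

/-- the root -/
def root : Tr := pt ⟨fun _ => false, 0, le_rfl, zero_le_one⟩

theorem dist_root (x : Pre) : dist root (pt x) = x.t := by
  unfold root
  rw [dist_pt]
  have h1 : Pre.meet ⟨fun _ => false, 0, le_rfl, zero_le_one⟩ x = 0 := by
    apply le_antisymm
    · exact Pre.meet_le_left _ _
    · exact Pre.meet_nonneg _ _
  rw [h1]
  ring

theorem mt_pt (x y : Pre) : mt root (pt x) (pt y) = x.meet y := by
  unfold mt
  rw [dist_root, dist_root, dist_pt]; ring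

theorem rooted : Rooted Tr root where
  ultra x y z := by
    obtain ⟨x, rfl⟩ := pt_surj x
    obtain ⟨y, rfl⟩ := pt_surj y
    obtain ⟨z, rfl⟩ := pt_surj z
    rw [mt_pt, mt_pt, mt_pt]
    exact Pre.meet_ultra x y z
  trunc x s h0 h1 := by
    obtain ⟨x, rfl⟩ := pt_surj x
    rw [dist_root] at h1
    refine ⟨pt ⟨x.w, s, h0, h1.trans x.h1⟩, dist_root _, ?_⟩
    rw [mt_pt]
    unfold Pre.meet
    simp only
    rw [spl_self, min_eq_left h1, min_eq_left (h1.trans x.h1)]

theorem mem_seg_pt (x y : Pre) : pt x ∈ Rooted.seg root (pt y) ↔ x.t ≤ y.t ∧ x.t ≤ spl x.w y.w := by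
  rw [mem_seg, mt_pt, dist_root]
  unfold Pre.meet
  constructor
  · intro h
    constructor
    · rw [← h]; exact (min_le_left _ _).trans (min_le_right _ _)
    · rw [← h]; exact min_le_right _ _
  · rintro ⟨h1, h2⟩
    rw [min_eq_left h1, min_eq_left h2]

/-- parametrization by the Cantor set times an interval -/
def par (p : (ℕ → Bool) × Set.Icc (0 : ℝ) 1) : Tr := pt ⟨p.1, p.2, p.2.2.1, p.2.2.2⟩

theorem par_surj : Function.Surjective par := by
  intro z
  obtain ⟨x, rfl⟩ := pt_surj z
  exact ⟨(x.w, ⟨x.t, x.h0, x.h1⟩), rfl⟩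

theorem par_cont : Continuous par := by
  rw [continuous_iff_continuousAt]
  rintro ⟨v, t⟩
  rw [ContinuousAt, Metric.tendsto_nhds]
  intro ε hε
  -- a level close to the top
  obtain ⟨n, hn⟩ := exists_pow_lt_of_lt_one (show (0 : ℝ) < ε / 4 by positivity)
    (show (1 / 2 : ℝ) < 1 by norm_num)
  have hn' : 1 - hh n < ε / 4 := by
    unfold hh
    have : (1 / 2 : ℝ) ^ (n ^ 2) ≤ (1 / 2 : ℝ) ^ n :=
      pow_le_pow_of_le_one (by norm_num) (by norm_num) (by nlinarith [Nat.zero_le n, Nat.le_self_pow (two_ne_zero) n])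
    linarith
  have h1 : ∀ᶠ p : (ℕ → Bool) × Set.Icc (0 : ℝ) 1 in 𝓝 (v, t), p.1 ∈ PiNat.cylinder v (n ^ 2) :=
    continuous_fst.continuousAt.eventually_mem
      ((PiNat.isOpen_cylinder (fun _ => Bool) v _).mem_nhds (PiNat.self_mem_cylinder v _))
  have h2 : ∀ᶠ p : (ℕ → Bool) × Set.Icc (0 : ℝ) 1 in 𝓝 (v, t), dist (p.2 : ℝ) t < ε / 2 := by
    have : ContinuousAt (fun p : (ℕ → Bool) × Set.Icc (0 : ℝ) 1 => (p.2 : ℝ)) (v, t) := by
      fun_prop
    exact Metric.tendsto_nhds.mp this (ε / 2) (by positivity)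
  filter_upwards [h1, h2] with p hp1 hp2
  obtain ⟨v', t'⟩ := p
  simp only at hp1 hp2
  unfold par
  rw [dist_pt]
  unfold Pre.meet
  simp only
  have h3 : hh n ≤ spl v' v := by
    have := spl_ge (v := v') (w := v) (n := n ^ 2) (fun i hi => (PiNat.mem_cylinder_iff.mp hp1) i hi)
    rwa [lev_sq] at this
  rw [Real.dist_eq] at hp2
  have ht' := t'.2.2
  have ht := t.2.2
  obtain ⟨ha, hb⟩ := abs_lt.mp hp2
  rcases min_cases (min (t' : ℝ) t) (spl v' v) with ⟨e, _⟩ | ⟨e, _⟩
  · rw [e]
    rcases min_cases (t' : ℝ) t with ⟨e', _⟩ | ⟨e', _⟩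
    · rw [e']; linarith
    · rw [e']; linarith
  · rw [e]; linarith

instance : CompactSpace Tr := by
  constructor
  have := isCompact_range par_cont
  rwa [par_surj.range_eq] at this

end Pool.Agent.X104.RT
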