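import Pool.Agent.X104.RT.Seq

/-!
Uniform regularity of the sequence.
-/

set_option autoImplicit false

noncomputable section

open Set Filter Topology
open Pool.Agent.H266R3.LF

namespace Pool.Agent.X104.RT

/-- words of length `n + 1` -/
def wEquiv (n : ℕ) : (Fin n → Bool) × Bool ≃ (Fin (n + 1) → Bool) where
  toFun p := snc p.1 p.2
  invFun v := (fun i => v i.castSucc, v (Fin.last n))
  left_inv p := by
    unfold snc
    ext i
    · simp
    · simp
  right_inv v := by
    unfold snc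
    ext i
    refine Fin.lastCases ?_ (fun i => ?_) i
    · simp
    · simp

theorem ext0_lt {n : ℕ} (v : Fin n → Bool) {i : ℕ} (hi : i < n) : ext0 v i = v ⟨i, hi⟩ := by
  unfold ext0; rw [dif_pos hi]

section

open Classical

/-- number of words of length `n` whose extension satisfies `Q` -/
def cnt (Q : (ℕ → Bool) → Prop) (n : ℕ) : ℕ :=
  (Finset.univ.filter fun v : Fin n → Bool => Q (ext0 v)).card

theorem cnt_succ (Q : (ℕ → Bool) → Prop) (N n : ℕ) (hn : N ≤ n)
    (hQ : ∀ ω ω' : ℕ → Bool, (∀ i < N, ω i = ω' i) → (Q ω ↔ Q ω')) :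
    cnt Q (n + 1) = 2 * cnt Q n := by
  unfold cnt
  have h1 : (Finset.univ.filter fun v : Fin (n + 1) → Bool => Q (ext0 v)) =
      (((Finset.univ.filter fun v : Fin n → Bool => Q (ext0 v)) ×ˢ
        (Finset.univ : Finset Bool)).map (wEquiv n).toEmbedding) := by
    ext v
    simp only [Finset.mem_filter, Finset.mem_univ, true_and, Finset.mem_map_equiv,
      Finset.mem_product, and_true]
    obtain ⟨⟨w, b⟩, rfl⟩ := (wEquiv n).surjective v
    rw [Equiv.symm_apply_apply]
    refine hQ _ _ fun i hi => ?_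
    show ext0 (snc w b) i = ext0 w i
    rw [ext0_snc_lt w b (by omega), ext0_lt w (by omega)]
  rw [h1, Finset.card_map, Finset.card_product, Finset.card_univ, Fintype.card_bool]
  ring

theorem cnt_mono (Q Q' : (ℕ → Bool) → Prop) (h : ∀ ω, Q ω → Q' ω) (n : ℕ) :
    cnt Q n ≤ cnt Q' n := by
  unfold cnt
  refine Finset.card_le_card fun v hv => ?_
  simp only [Finset.mem_filter, Finset.mem_univ, true_and] at hv ⊢
  exact h _ hv

theorem cnt_le (Q : (ℕ → Bool) → Prop) (n : ℕ) : cnt Q n ≤ 2 ^ n := by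
  unfold cnt
  refine (Finset.card_filter_le _ _).trans ?_
  rw [Finset.card_univ, Fintype.card_fun, Fintype.card_bool, Fintype.card_fin]

theorem cnt_const (Q : (ℕ → Bool) → Prop) (N n : ℕ) (hn : N ≤ n)
    (hQ : ∀ ω ω' : ℕ → Bool, (∀ i < N, ω i = ω' i) → (Q ω ↔ Q ω')) :
    (cnt Q n : ℝ) / 2 ^ n = (cnt Q N : ℝ) / 2 ^ N := by
  induction n, hn using Nat.le_induction with
  | base => rfl
  | succ n hn ih =>
    rw [cnt_succ Q N n hn hQ, ← ih, pow_succ]
    push_cast
    field_simp

theorem cnt_diff (Q Q' : (ℕ → Bool) → Prop) (h : ∀ ω, Q ω → Q' ω) (n : ℕ) :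
    cnt (fun ω => Q' ω ∧ ¬ Q ω) n + cnt Q n = cnt Q' n := by
  unfold cnt
  rw [← Finset.card_union_of_disjoint]
  · congr 1
    ext v
    simp only [Finset.mem_union, Finset.mem_filter, Finset.mem_univ, true_and]
    constructor
    · rintro (⟨h1, _⟩ | h1)
      · exact h1
      · exact h _ h1
    · intro h1
      by_cases h2 : Q (ext0 v)
      · exact Or.inr h2
      · exact Or.inl ⟨h1, h2⟩
  · rw [Finset.disjoint_left]
    intro v h1 h2
    simp only [Finset.mem_filter, Finset.mem_univ, true_and] at h1 h2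
    exact h1.2 h2

end

/-- the end of a branch -/
def endp (η : ℕ → Bool) : Tr := par (η, ⟨1, zero_le_one, le_rfl⟩)

theorem endp_cont : Continuous endp := par_cont.comp (by fun_prop)

/-- all ends extending the first `n` bits of `ω` lie in `U` -/
def Bp (U : Set Tr) (n : ℕ) (ω : ℕ → Bool) : Prop :=
  ∀ η : ℕ → Bool, (∀ i < n, η i = ω i) → endp η ∈ U

theorem Bp_dep (U : Set Tr) (n : ℕ) (ω ω' : ℕ → Bool) (h : ∀ i < n, ω i = ω' i) :
    Bp U n ω ↔ Bp U n ω' := by
  constructor
  · intro h1 η hη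
    exact h1 η fun i hi => by rw [hη i hi, h i hi]
  · intro h1 η hη
    exact h1 η fun i hi => by rw [hη i hi, h i hi]

theorem Bp_mono (U : Set Tr) {n m : ℕ} (hnm : n ≤ m) (ω : ℕ → Bool) (h : Bp U n ω) : Bp U m ω :=
  fun η hη => h η fun i hi => hη i (by omega)

/-- the closed span of evaluation functionals -/
def freeOn (A : Set Tr) : Submodule ℝ (StrongDual ℝ (Lip0 Tr root)) :=
  (Submodule.span ℝ (dlt Tr root '' A)).topologicalClosure

theorem dlt_freeOn {A : Set Tr} {z : Tr} (hz : z ∈ A) : dlt Tr root z ∈ freeOn A :=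
  Submodule.le_topologicalClosure _ (Submodule.subset_span ⟨z, hz, rfl⟩)

theorem exists_N (U : Set Tr) (ε : ℝ) (hε : 0 < ε) : ∃ N : ℕ, ∀ n, N ≤ n →
    (cnt (fun ω => Bp U n ω ∧ ¬ Bp U N ω) n : ℝ) ≤ ε * 2 ^ n := by
  set a : ℕ → ℝ := fun n => (cnt (Bp U n) n : ℝ) / 2 ^ n with ha
  have ha1 : ∀ n, a n ≤ 1 := by
    intro n
    rw [ha]
    simp only
    rw [div_le_one (by positivity)]
    exact_mod_cast cnt_le (Bp U n) n
  have hbdd : BddAbove (Set.range a) := ⟨1, by rintro _ ⟨n, rfl⟩; exact ha1 n⟩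
  obtain ⟨N, hN⟩ := exists_lt_of_lt_ciSup (show (⨆ n, a n) - ε < ⨆ n, a n by linarith)
  refine ⟨N, fun n hn => ?_⟩
  have h1 := cnt_diff (Bp U N) (Bp U n) (fun ω h => Bp_mono U hn ω h) n
  have h2 := cnt_const (Bp U N) N n hn (Bp_dep U N)
  have h3 : a n ≤ ⨆ n, a n := le_ciSup hbdd n
  have h4 : (cnt (Bp U N) N : ℝ) / 2 ^ N = a N := rfl
  have h5 : (cnt (fun ω => Bp U n ω ∧ ¬ Bp U N ω) n : ℝ) + cnt (Bp U N) n = cnt (Bp U n) n := by
    exact_mod_cast h1
  have h6 : (cnt (fun ω => Bp U n ω ∧ ¬ Bp U N ω) n : ℝ) / 2 ^ n = a n - a N := by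
    rw [← h4, ← h2]
    simp only [ha]
    rw [← sub_div, ← h5]
    ring
  have h7 : (cnt (fun ω => Bp U n ω ∧ ¬ Bp U N ω) n : ℝ) / 2 ^ n ≤ ε := by
    rw [h6]; linarith
  rwa [div_le_iff₀ (by positivity)] at h7

theorem dist_end {j : ℕ} (v : Fin (j ^ 2 + 1) → Bool) (η : ℕ → Bool)
    (h : ∀ i < j ^ 2 + 1, η i = ext0 v i) : dist (pt (zp j v)) (endp η) ≤ 1 - hh (j + 1) := by
  unfold endp par
  rw [dist_pt]
  unfold Pre.meet zp
  simp only
  have h1 := spl_ge (v := ext0 v) (w := η) (n := j ^ 2 + 1) (fun i hi => (h i hi).symm)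
  rw [lev_sq_succ] at h1
  have h2 := (hh_lt_one (j + 1)).le
  rw [min_eq_left h2, min_eq_left h1]
  linarith

theorem dist_top (ω : ℕ → Bool) (t : Set.Icc (0 : ℝ) 1) :
    dist (par (ω, t)) (endp ω) = 1 - t := by
  unfold endp par
  rw [dist_pt]
  unfold Pre.meet
  simp only
  rw [spl_self, min_eq_left t.2.2, min_eq_left t.2.2]
  ring

/-- **Uniform regularity.** -/
theorem unif (U : Set Tr) (hU : IsOpen U) (ε : ℝ) (hε : 0 < ε) :
    ∃ K : Set Tr, IsCompact K ∧ K ⊆ U ∧ ∀ j, ∃ β ∈ freeOn (K ∪ Uᶜ), ‖gam j - β‖ ≤ ε := by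
  classical
  obtain ⟨N, hN⟩ := exists_N U (ε / 8) (by positivity)
  -- the clopen set of good branches
  have hclosed : IsClosed {ω : ℕ → Bool | Bp U N ω} := by
    rw [← isOpen_compl_iff, isOpen_iff_forall_mem_open]
    intro ω hω
    refine ⟨PiNat.cylinder ω N, ?_, PiNat.isOpen_cylinder (fun _ => Bool) ω N,
      PiNat.self_mem_cylinder ω N⟩
    intro ω' hω' hcon
    exact hω ((Bp_dep U N ω' ω (PiNat.mem_cylinder_iff.mp hω')).mp hcon)
  have hcomp : IsCompact {ω : ℕ → Bool | Bp U N ω} := hclosed.isCompact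
  have hCU : endp '' {ω : ℕ → Bool | Bp U N ω} ⊆ U := by
    rintro _ ⟨ω, hω, rfl⟩
    exact hω ω fun _ _ => rfl
  obtain ⟨r, hr, hrU⟩ := (hcomp.image endp_cont).exists_thickening_subset_open hU hCU
  -- large levels
  have hlim1 : ∀ᶠ j : ℕ in atTop, (1 / 2 : ℝ) ^ j < r :=
    (tendsto_pow_atTop_nhds_zero_of_lt_one (by norm_num) (by norm_num)).eventually_lt_const hr
  have hlim2 : ∀ᶠ j : ℕ in atTop, (1 / 2 : ℝ) ^ j < ε / 2 :=
    (tendsto_pow_atTop_nhds_zero_of_lt_one (by norm_num) (by norm_num)).eventually_lt_const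
      (by positivity)
  obtain ⟨J0, hJ0⟩ := eventually_atTop.mp ((hlim1.and hlim2).and (eventually_ge_atTop N))
  set s : Set (Set.Icc (0 : ℝ) 1) := {t | 1 - (1 / 2 : ℝ) ^ J0 ≤ (t : ℝ)} with hs
  have hsc : IsCompact s := (isClosed_le continuous_const continuous_subtype_val).isCompact
  set F : Set Tr := ⋃ j ∈ Finset.range J0, Set.range (fun v : Fin (j ^ 2 + 1) → Bool => pt (zp j v))
    with hF
  have hFfin : F.Finite := Set.Finite.biUnion (Finset.finite_toSet _) fun j _ => Set.finite_range _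
  refine ⟨par '' ({ω : ℕ → Bool | Bp U N ω} ×ˢ s) ∪ (F ∩ U), ?_, ?_, ?_⟩
  · exact ((hcomp.prod hsc).image par_cont).union (hFfin.subset Set.inter_subset_left).isCompact
  · rintro z (⟨⟨ω, t⟩, ⟨hω, ht⟩, rfl⟩ | hz)
    · apply hrU
      rw [Metric.mem_thickening_iff]
      refine ⟨endp ω, ⟨ω, hω, rfl⟩, ?_⟩
      rw [dist_top]
      have h1 : 1 - (1 / 2 : ℝ) ^ J0 ≤ (t : ℝ) := ht
      have h2 := (hJ0 J0 le_rfl).1.1
      linarith
    · exact hz.2
  · intro j
    set A : Set Tr := par '' ({ω : ℕ → Bool | Bp U N ω} ×ˢ s) ∪ (F ∩ U) ∪ Uᶜ with hA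
    rcases lt_or_ge j J0 with hj | hj
    · -- small levels: exact
      refine ⟨gam j, ?_, by rw [sub_self, norm_zero]; exact hε.le⟩
      have hz : ∀ w b, zz j w b ∈ A := by
        intro w b
        by_cases h : zz j w b ∈ U
        · left; right
          refine ⟨?_, h⟩
          rw [hF]
          simp only [Set.mem_iUnion]
          exact ⟨j, Finset.mem_range.mpr hj, ⟨_, rfl⟩⟩
        · right; exact h
      unfold gam
      exact Submodule.sum_mem _ fun w _ =>
        Submodule.sub_mem _ (dlt_freeOn (hz w false)) (dlt_freeOn (hz w true))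
    · -- large levels
      obtain ⟨⟨hj1, hj2⟩, hj3⟩ := hJ0 j hj
      have hNj : N ≤ j ^ 2 + 1 := by
        have : j ≤ j ^ 2 := Nat.le_self_pow two_ne_zero j
        omega
      -- replacement of a vertex
      have hrep : ∀ v : Fin (j ^ 2 + 1) → Bool,
          ¬ (Bp U (j ^ 2 + 1) (ext0 v) ∧ ¬ Bp U N (ext0 v)) →
          ∃ β ∈ freeOn A, ‖dlt Tr root (pt (zp j v)) - β‖ ≤ 1 - hh (j + 1) := by
        intro v hv
        by_cases h1 : Bp U (j ^ 2 + 1) (ext0 v)
        · have h2 : Bp U N (ext0 v) := by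
            by_contra h2
            exact hv ⟨h1, h2⟩
          refine ⟨dlt Tr root (pt (zp j v)), dlt_freeOn ?_, ?_⟩
          · left; left
            refine ⟨(ext0 v, ⟨hh (j + 1), hh_nonneg _, (hh_lt_one _).le⟩), ⟨h2, ?_⟩, rfl⟩
            show 1 - (1 / 2 : ℝ) ^ J0 ≤ hh (j + 1)
            unfold hh
            have : (1 / 2 : ℝ) ^ ((j + 1) ^ 2) ≤ (1 / 2 : ℝ) ^ J0 :=
              pow_le_pow_of_le_one (by norm_num) (by norm_num) (by nlinarith)
            linarith
          · rw [sub_self, norm_zero]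
            have := (hh_lt_one (j + 1)).le
            linarith
        · unfold Bp at h1
          push Not at h1
          obtain ⟨η, hη1, hη2⟩ := h1
          refine ⟨dlt Tr root (endp η), dlt_freeOn (Or.inr hη2), ?_⟩
          exact (norm_dlt_sub_le _ _).trans (dist_end v η hη1)
      set bad : Finset (Fin (j ^ 2) → Bool) := Finset.univ.filter fun w =>
        ∃ b, Bp U (j ^ 2 + 1) (ext0 (snc w b)) ∧ ¬ Bp U N (ext0 (snc w b)) with hbad
      have hterm : ∀ w : Fin (j ^ 2) → Bool, ∃ β ∈ freeOn A,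
          ‖(dlt Tr root (zz j w false) - dlt Tr root (zz j w true)) - β‖ ≤
            (if w ∈ bad then 2 * (1 / 2 : ℝ) ^ (j ^ 2) else 0) + 2 * (1 - hh (j + 1)) := by
        intro w
        have h0 := (hh_lt_one (j + 1)).le
        by_cases hw : w ∈ bad
        · refine ⟨0, Submodule.zero_mem _, ?_⟩
          rw [sub_zero, if_pos hw]
          have h1 := norm_dlt_sub_le (M := Tr) (o := root) (zz j w false) (zz j w true)
          have h2 := dist_pair w false true
          have h3 := len_le j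
          linarith
        · have hw' : ∀ b, ¬ (Bp U (j ^ 2 + 1) (ext0 (snc w b)) ∧ ¬ Bp U N (ext0 (snc w b))) := by
            intro b hb
            exact hw (Finset.mem_filter.mpr ⟨Finset.mem_univ _, b, hb⟩)
          obtain ⟨β1, hβ1, hn1⟩ := hrep _ (hw' false)
          obtain ⟨β2, hβ2, hn2⟩ := hrep _ (hw' true)
          refine ⟨β1 - β2, Submodule.sub_mem _ hβ1 hβ2, ?_⟩
          rw [if_neg hw, zero_add]
          have h1 : (dlt Tr root (zz j w false) - dlt Tr root (zz j w true)) - (β1 - β2) =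
              (dlt Tr root (zz j w false) - β1) - (dlt Tr root (zz j w true) - β2) := by
            ext f
            simp only [_root_.sub_apply]
            ring
          rw [h1]
          refine (norm_sub_le _ _).trans ?_
          unfold zz
          linarith
      choose β hβ hβn using hterm
      refine ⟨∑ w, β w, Submodule.sum_mem _ fun w _ => hβ w, ?_⟩
      have hcard : (bad.card : ℝ) ≤ (ε / 8) * 2 ^ (j ^ 2 + 1) := by
        refine le_trans ?_ (hN (j ^ 2 + 1) hNj)
        have h1 : bad.card ≤ cnt (fun ω => Bp U (j ^ 2 + 1) ω ∧ ¬ Bp U N ω) (j ^ 2 + 1) := by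
          unfold cnt
          refine le_trans (Finset.card_le_card (t := Finset.image
            (fun v => ((wEquiv (j ^ 2)).symm v).1) _) ?_) Finset.card_image_le
          intro w hw
          obtain ⟨b, hb⟩ := (Finset.mem_filter.mp hw).2
          rw [Finset.mem_image]
          refine ⟨snc w b, by simp only [Finset.mem_filter, Finset.mem_univ, true_and]; exact hb, ?_⟩
          have : (wEquiv (j ^ 2)).symm (snc w b) = (w, b) :=
            (wEquiv (j ^ 2)).symm_apply_apply (w, b)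
          rw [this]
        exact_mod_cast h1
      have h1 : gam j - ∑ w, β w = ∑ w : Fin (j ^ 2) → Bool,
          ((dlt Tr root (zz j w false) - dlt Tr root (zz j w true)) - β w) := by
        unfold gam
        rw [← Finset.sum_sub_distrib]
      rw [h1]
      calc ‖∑ w : Fin (j ^ 2) → Bool,
          ((dlt Tr root (zz j w false) - dlt Tr root (zz j w true)) - β w)‖
          ≤ ∑ w : Fin (j ^ 2) → Bool,
            ‖(dlt Tr root (zz j w false) - dlt Tr root (zz j w true)) - β w‖ := norm_sum_le _ _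
        _ ≤ ∑ w : Fin (j ^ 2) → Bool, ((if w ∈ bad then 2 * (1 / 2 : ℝ) ^ (j ^ 2) else 0) +
              2 * (1 - hh (j + 1))) := Finset.sum_le_sum fun w _ => hβn w
        _ = bad.card * (2 * (1 / 2 : ℝ) ^ (j ^ 2)) + 2 ^ (j ^ 2) * (2 * (1 - hh (j + 1))) := by
            rw [Finset.sum_add_distrib, Finset.sum_const, Finset.card_univ, nsmul_eq_mul,
              card_words, ← Finset.sum_filter, Finset.sum_const, nsmul_eq_mul]
            congr 3
            congr 1
            ext w
            simp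
        _ ≤ ε / 2 + ε / 2 := by
            refine add_le_add ?_ ?_
            · have h2 : (bad.card : ℝ) * (2 * (1 / 2 : ℝ) ^ (j ^ 2)) ≤
                  ((ε / 8) * 2 ^ (j ^ 2 + 1)) * (2 * (1 / 2 : ℝ) ^ (j ^ 2)) := by gcongr
              have h3 := two_half (j ^ 2)
              have h4 : ((ε / 8) * 2 ^ (j ^ 2 + 1)) * (2 * (1 / 2 : ℝ) ^ (j ^ 2)) = ε / 2 := by
                rw [pow_succ]
                linear_combination (ε / 2) * h3
              linarith
            · have h2 : (2 : ℝ) ^ (j ^ 2) * (2 * (1 - hh (j + 1))) = (1 / 2 : ℝ) ^ (2 * j) := by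
                unfold hh
                have h3 := two_half (j ^ 2)
                have h4 : (1 / 2 : ℝ) ^ ((j + 1) ^ 2) =
                    (1 / 2 : ℝ) ^ (j ^ 2) * (1 / 2 : ℝ) ^ (2 * j) * (1 / 2) := by
                  rw [← pow_add, ← pow_succ]
                  congr 1
                  ring
                rw [h4]
                linear_combination (1 / 2 : ℝ) ^ (2 * j) * h3
              rw [h2]
              have h3 : (1 / 2 : ℝ) ^ (2 * j) ≤ (1 / 2 : ℝ) ^ j :=
                pow_le_pow_of_le_one (by norm_num) (by norm_num) (by omega)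
              linarith
        _ = ε := by ring

end Pool.Agent.X104.RT
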